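import Pool.Agent.HVW.Defs2

/-! HVW, module A2 (helper26): the progressions in the colouring with two recoloured blocks. -/

set_option autoImplicit false

namespace Pool.Agent.HVW

private theorem col2_s {s : ℕ → Bool} {N a j k x : ℕ} (h : col2 s N a j k x = false)
    (h1 : j ≤ x) (h2 : x + k < N) : s (a + x) = false := by
  unfold col2 at h
  rw [if_neg (by omega)] at h
  exact h

/-- MODULE A2 -/
theorem no_false2 (p δ N : ℕ) (s : ℕ → Bool) (hs : Seq p s) (h1 : 1 ≤ δ) (hδp : δ < p)
    (hN2 : N ≤ p * (2 ^ p - 1)) (hN3 : 2 * δ + p * δ < N) (a j k x d : ℕ) (hg : Good2 s p δ N a)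
    (hj : j ≤ δ) (hk : k ≤ δ) (hd : 1 ≤ d) (h : x + p * d < N) :
    ¬ ∀ i, i < p + 1 → col2 s N a j k (x + i * d) = false := by
  intro hall
  have hdL := d_lt hN2 h
  obtain ⟨q, hq⟩ : ∃ q, p = q + 1 := ⟨p - 1, by omega⟩
  have hpd : p * d = q * d + d := by rw [hq]; ring
  rcases Nat.lt_or_ge (x + d) j with hlt | hge
  · -- the progression is near the left block
    have hpδ : p * d ≤ p * δ := Nat.mul_le_mul_left p (by omega)
    refine hg.1 x (by omega) d hd (by omega) fun i hi => ?_
    have h3 : δ * 1 ≤ (δ + i) * d := Nat.mul_le_mul (by omega) hd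
    have h4 : (δ + i) * d ≤ p * d := Nat.mul_le_mul_right d (by omega)
    have h5 := col2_s (hall (δ + i) (by omega)) (by omega) (by omega)
    rw [← h5]
    congr 1
    ring
  rcases Nat.lt_or_ge (x + q * d + k) N with hlt2 | hge2
  · -- terms `1..p-1` are zeros of `s`
    have hmid : ∀ i, 1 ≤ i → i < p → s (a + (x + i * d)) = false := by
      intro i hi1 hi2
      have h3 : 1 * d ≤ i * d := Nat.mul_le_mul_right d hi1
      have h4 : i * d ≤ q * d := Nat.mul_le_mul_right d (by omega)
      exact col2_s (hall i (by omega)) (by omega) (by omega)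
    rcases Nat.lt_or_ge x j with hx | hx
    · rcases Nat.lt_or_ge (x + p * d + k) N with hr | hr
      · refine hs.zeros (a + (x + d)) d hd hdL fun i hi => ?_
        rcases Nat.lt_or_ge (i + 1) p with h3 | h3
        · rw [← hmid (i + 1) (by omega) h3]
          congr 1
          ring
        · have h4 : i + 1 = p := by omega
          have h5 := col2_s (hall p (by omega)) (by omega) hr
          rw [← h5, ← h4]
          congr 1
          ring
      · refine hg.2.2 x (by omega) (N - 1 - (x + p * d)) (by omega) d hd (by omega)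
          fun i hi => ?_
        rw [← hmid (i + 1) (by omega) (by omega)]
        congr 1
        ring
    · refine hs.zeros (a + x) d hd hdL fun i hi => ?_
      rcases Nat.eq_zero_or_pos i with h3 | h3
      · subst h3
        have h5 := col2_s (hall 0 (by omega)) (by omega) (by
          have : 0 * d = 0 := Nat.zero_mul d
          omega)
        rw [← h5]
        congr 1
        ring
      · rw [← hmid i h3 hi]
        congr 1
        ring
  · -- the progression is near the right block
    have hdk : d < k := by omega
    have hpδ : p * d ≤ p * δ := Nat.mul_le_mul_left p (by omega)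
    refine hg.2.1 (N - 1 - (x + p * d)) (by omega) d hd (by omega) fun i hi => ?_
    have h3 : i * d + δ * d ≤ p * d := by
      rw [← Nat.add_mul]
      exact Nat.mul_le_mul_right d (by omega)
    have h4 : δ * 1 ≤ δ * d := Nat.mul_le_mul_left δ hd
    have h5 := col2_s (hall i (by omega)) (by omega) (by omega)
    rw [← h5]
    congr 1
    omega

/-- MODULE A2 -/
theorem no_true2 (p N : ℕ) (s : ℕ → Bool) (hs : Seq p s)
    (hN2 : N ≤ p * (2 ^ p - 1)) (a j k x d : ℕ) (hd : 1 ≤ d) (h : x + p * d < N) :
    ¬ ∀ i, i < p + 1 → col2 s N a j k (x + i * d) = true := by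
  intro hall
  refine hs.ones (a + x) d hd (d_lt hN2 h) fun i hi => ?_
  have h1 := hall i hi
  unfold col2 at h1
  split_ifs at h1
  rw [← add_assoc] at h1
  exact h1

end Pool.Agent.HVW
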