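import Mathlib

/-!
# Halving colourings without long progressions, all lengths (helper99)

The positions `2 i`, `2 i + 1` get opposite colours; the sign choices are counted by Rosenfeld's
method.
-/

set_option autoImplicit false

namespace Pool.Agent.HVW.AllN

open Finset

/-- the colour of the position `x`: the positions `2 i`, `2 i + 1` get opposite colours -/
def colr (T : Finset ℕ) (x : ℕ) : Bool := xor (decide (x / 2 ∈ T)) (decide (x % 2 = 1))

/-- the pairs met by the progression -/
def prs (n : ℕ) (q : ℕ × ℕ) : Finset ℕ := (range n).image (fun i => (q.1 + i * q.2) / 2)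

def Mono (n : ℕ) (T : Finset ℕ) (q : ℕ × ℕ) (b : Bool) : Prop :=
  ∀ i, i < n → colr T (q.1 + i * q.2) = b

/-- progressions with `n` terms and difference at least two below `2 m` -/
def aps (n m : ℕ) : Finset (ℕ × ℕ) :=
  (range (2 * m) ×ˢ range (2 * m)).filter (fun q => 2 ≤ q.2 ∧ q.1 + (n - 1) * q.2 < 2 * m)

def OK (n m : ℕ) (S T : Finset ℕ) : Prop := ∀ q ∈ aps n m, prs n q ⊆ S → ∀ b, ¬ Mono n T q b

open Classical in
noncomputable def C (n m : ℕ) (S : Finset ℕ) : ℕ := (S.powerset.filter (OK n m S)).card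

theorem colr_congr {T T' : Finset ℕ} {x : ℕ} (h : x / 2 ∈ T ↔ x / 2 ∈ T') :
    colr T x = colr T' x := by
  unfold colr
  rw [decide_eq_decide.2 h]

theorem xor_can : ∀ a b c : Bool, xor a c = xor b c → a = b := by decide

theorem mem_of_colr {T T' : Finset ℕ} {x : ℕ} (h : colr T x = colr T' x) :
    x / 2 ∈ T ↔ x / 2 ∈ T' := by
  unfold colr at h
  exact decide_eq_decide.1 (xor_can _ _ _ h)

theorem mono_congr {n : ℕ} {T T' : Finset ℕ} {q : ℕ × ℕ} {b : Bool}
    (h : ∀ j ∈ prs n q, (j ∈ T ↔ j ∈ T')) (hm : Mono n T q b) : Mono n T' q b := by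
  intro i hi
  rw [← hm i hi]
  exact (colr_congr (h _ (mem_image_of_mem _ (mem_range.2 hi)))).symm

theorem ok_congr {n m : ℕ} {S T T' : Finset ℕ} (h : ∀ j ∈ S, (j ∈ T ↔ j ∈ T'))
    (hT : OK n m S T) : OK n m S T' :=
  fun q hq hS b hb => hT q hq hS b (mono_congr (fun j hj => (h j (hS hj)).symm) hb)

theorem ok_mono {n m : ℕ} {S S' T : Finset ℕ} (h : S' ⊆ S) (hT : OK n m S T) : OK n m S' T :=
  fun q hq hS b hb => hT q hq (hS.trans h) b hb

theorem prs_card {n : ℕ} {q : ℕ × ℕ} (h : 2 ≤ q.2) : (prs n q).card = n := by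
  unfold prs
  rw [card_image_of_injOn, card_range]
  intro i _ j _ hij
  simp only at hij
  rcases lt_trichotomy i j with h1 | h1 | h1
  · have h2 : (i + 1) * q.2 ≤ j * q.2 := Nat.mul_le_mul_right _ h1
    rw [add_mul, one_mul] at h2
    omega
  · exact h1
  · have h2 : (j + 1) * q.2 ≤ i * q.2 := Nat.mul_le_mul_right _ h1
    rw [add_mul, one_mul] at h2
    omega

open Classical in
theorem key1 (n m : ℕ) (hn : 1 ≤ n) (S : Finset ℕ) (i : ℕ) (hi : i ∈ S) :
    2 * C n m (S.erase i) ≤ C n m S +
      ∑ q ∈ (aps n m).filter (fun q => i ∈ prs n q ∧ prs n q ⊆ S), 2 * C n m (S \ prs n q) := by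
  have hX : 2 * C n m (S.erase i) ≤ (S.powerset.filter (OK n m (S.erase i))).card := by
    have h1 : (S.erase i).powerset.filter (OK n m (S.erase i)) ∪
        ((S.erase i).powerset.filter (OK n m (S.erase i))).image (insert i) ⊆
        S.powerset.filter (OK n m (S.erase i)) := by
      intro T hT
      rcases mem_union.1 hT with hT | hT
      · rw [mem_filter, mem_powerset] at hT ⊢
        exact ⟨hT.1.trans (erase_subset _ _), hT.2⟩
      · obtain ⟨T', hT', rfl⟩ := mem_image.1 hT
        rw [mem_filter, mem_powerset] at hT' ⊢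
        refine ⟨insert_subset hi (hT'.1.trans (erase_subset _ _)), ok_congr ?_ hT'.2⟩
        intro j hj
        rw [mem_insert]
        have := (mem_erase.1 hj).1
        tauto
    have h2 : Disjoint ((S.erase i).powerset.filter (OK n m (S.erase i)))
        (((S.erase i).powerset.filter (OK n m (S.erase i))).image (insert i)) := by
      rw [Finset.disjoint_left]
      intro T hT hT'
      obtain ⟨T', -, rfl⟩ := mem_image.1 hT'
      rw [mem_filter, mem_powerset] at hT
      exact (notMem_erase i S) (hT.1 (mem_insert_self _ _))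
    have h3 : (((S.erase i).powerset.filter (OK n m (S.erase i))).image (insert i)).card =
        ((S.erase i).powerset.filter (OK n m (S.erase i))).card := by
      apply card_image_of_injOn
      intro T hT T' hT' h
      rw [mem_coe, mem_filter, mem_powerset] at hT hT'
      have e : ∀ {T : Finset ℕ}, T ⊆ S.erase i → (insert i T).erase i = T := fun {T} hT =>
        erase_insert (fun h => notMem_erase i S (hT h))
      rw [← e hT.1, ← e hT'.1]
      exact congrArg (fun A => A.erase i) h
    have h4 := card_le_card h1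
    rw [card_union_of_disjoint h2, h3] at h4
    unfold C
    omega
  have hX2 : S.powerset.filter (OK n m (S.erase i)) ⊆ (S.powerset.filter (OK n m S)) ∪
      ((aps n m).filter (fun q => i ∈ prs n q ∧ prs n q ⊆ S)).biUnion
        (fun q => S.powerset.filter (fun T => OK n m (S \ prs n q) T ∧ ∃ b, Mono n T q b)) := by
    intro T hT
    rw [mem_filter] at hT
    by_cases hok : OK n m S T
    · exact mem_union_left _ (mem_filter.2 ⟨hT.1, hok⟩)
    · apply mem_union_right
      unfold OK at hok
      push Not at hok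
      obtain ⟨q, hq, hqS, b, hb⟩ := hok
      have hiq : i ∈ prs n q := by
        by_contra hiq
        exact hT.2 q hq (fun j hj => mem_erase.2 ⟨fun h => hiq (h ▸ hj), hqS hj⟩) b hb
      rw [mem_biUnion]
      refine ⟨q, mem_filter.2 ⟨hq, hiq, hqS⟩, mem_filter.2 ⟨hT.1, ok_mono ?_ hT.2, b, hb⟩⟩
      intro j hj
      rw [mem_sdiff] at hj
      exact mem_erase.2 ⟨fun h => hj.2 (h ▸ hiq), hj.1⟩
  have hB : ∀ q ∈ (aps n m).filter (fun q => i ∈ prs n q ∧ prs n q ⊆ S),
      (S.powerset.filter (fun T => OK n m (S \ prs n q) T ∧ ∃ b, Mono n T q b)).card ≤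
        2 * C n m (S \ prs n q) := by
    intro q hq
    have h1 : (((S \ prs n q).powerset.filter (OK n m (S \ prs n q))) ×ˢ
        (univ : Finset Bool)).card = 2 * C n m (S \ prs n q) := by
      rw [card_product, card_univ, Fintype.card_bool]
      unfold C
      ring
    rw [← h1]
    apply card_le_card_of_injOn (fun T => (T \ prs n q, colr T q.1))
    · intro T hT
      rw [mem_coe, mem_filter, mem_powerset] at hT
      rw [mem_coe, mem_product, mem_filter, mem_powerset]
      refine ⟨⟨sdiff_subset_sdiff hT.1 (Subset.refl _), ok_congr ?_ hT.2.1⟩, mem_univ _⟩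
      intro j hj
      rw [mem_sdiff] at hj ⊢
      tauto
    · intro T hT T' hT' h
      rw [mem_coe, mem_filter, mem_powerset] at hT hT'
      obtain ⟨h2, h3⟩ := Prod.mk.inj h
      obtain ⟨b, hb⟩ := hT.2.2
      obtain ⟨b', hb'⟩ := hT'.2.2
      have h4 := hb 0 (by omega)
      have h5 := hb' 0 (by omega)
      rw [zero_mul, add_zero] at h4 h5
      have hbb : b = b' := by rw [← h4, ← h5]; exact h3
      ext j
      by_cases hj : j ∈ prs n q
      · obtain ⟨t, ht, rfl⟩ := mem_image.1 hj
        rw [mem_range] at ht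
        exact mem_of_colr (by rw [hb t ht, hb' t ht, hbb])
      · have h6 : j ∈ T \ prs n q ↔ j ∈ T' \ prs n q := by rw [h2]
        rw [mem_sdiff, mem_sdiff] at h6
        tauto
  calc 2 * C n m (S.erase i) ≤ (S.powerset.filter (OK n m (S.erase i))).card := hX
    _ ≤ _ := card_le_card hX2
    _ ≤ (S.powerset.filter (OK n m S)).card + (((aps n m).filter
          (fun q => i ∈ prs n q ∧ prs n q ⊆ S)).biUnion
        (fun q => S.powerset.filter
          (fun T => OK n m (S \ prs n q) T ∧ ∃ b, Mono n T q b))).card := card_union_le _ _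
    _ ≤ C n m S + ∑ q ∈ (aps n m).filter (fun q => i ∈ prs n q ∧ prs n q ⊆ S),
          2 * C n m (S \ prs n q) :=
        Nat.add_le_add le_rfl (card_biUnion_le.trans (sum_le_sum hB))

theorem key2 (n m : ℕ) (hn : 2 ≤ n) (i : ℕ) :
    ((aps n m).filter (fun q => i ∈ prs n q)).card * (n - 1) ≤ 4 * n * m := by
  have h1 : (aps n m).filter (fun q => i ∈ prs n q) ⊆
      ((Icc 1 (2 * m / (n - 1))) ×ˢ (range n ×ˢ range 2)).image
        (fun w => (2 * i + w.2.2 - w.2.1 * w.1, w.1)) := by
    rintro ⟨x, d⟩ hq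
    rw [mem_filter] at hq
    obtain ⟨hq, hi⟩ := hq
    unfold aps at hq
    rw [mem_filter] at hq
    obtain ⟨-, hd, hx⟩ := hq
    simp only at hd hx
    obtain ⟨t, ht, hit⟩ := mem_image.1 hi
    simp only at hit
    rw [mem_range] at ht
    rw [mem_image]
    refine ⟨(d, t, (x + t * d) % 2), ?_, ?_⟩
    · rw [mem_product, mem_product, mem_Icc, mem_range, mem_range]
      refine ⟨⟨by omega, ?_⟩, ht, Nat.mod_lt _ (by norm_num)⟩
      rw [Nat.le_div_iff_mul_le (by omega), mul_comm]
      simp only
      omega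
    · simp only [Prod.mk.injEq, and_true]
      omega
  have h2 : ((aps n m).filter (fun q => i ∈ prs n q)).card ≤ (2 * m / (n - 1)) * (n * 2) := by
    refine (card_le_card h1).trans (card_image_le.trans ?_)
    rw [card_product, card_product, card_range, card_range, Nat.card_Icc]
    simp
  calc ((aps n m).filter (fun q => i ∈ prs n q)).card * (n - 1) ≤
      (2 * m / (n - 1)) * (n * 2) * (n - 1) := Nat.mul_le_mul_right _ h2
    _ = (2 * m / (n - 1)) * (n - 1) * (n * 2) := by ring
    _ ≤ 2 * m * (n * 2) := Nat.mul_le_mul_right _ (Nat.div_mul_le_self _ _)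
    _ = 4 * n * m := by ring

theorem growth (n m : ℕ) (hn : 3 ≤ n) (hm : 22 * n ^ 2 * m ≤ (n - 1) * 2 ^ n) (S : Finset ℕ) :
    ∀ i ∈ S, (2 * ((n : ℝ) - 1) / n) * C n m (S.erase i) ≤ C n m S := by
  have hn0 : (0 : ℝ) < n := by
    have : 0 < n := by omega
    exact_mod_cast this
  have hn1 : (0 : ℝ) < (n : ℝ) - 1 := by
    have : (3 : ℝ) ≤ n := by exact_mod_cast hn
    linarith
  set β : ℝ := 2 * ((n : ℝ) - 1) / n with hβ
  have hβ0 : 0 < β := by positivity
  have hcast : ((n - 1 : ℕ) : ℝ) = (n : ℝ) - 1 := by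
    rw [Nat.cast_sub (by omega), Nat.cast_one]
  -- `(1 - 1/n)^(n-1) ≥ 4/11`
  have he : (4 / 11 : ℝ) ≤ (((n : ℝ) - 1) / n) ^ (n - 1) := by
    have h1 : (n : ℝ) / ((n : ℝ) - 1) = 1 + 1 / ((n : ℝ) - 1) := by
      field_simp
      ring
    have h2 : ((n : ℝ) / ((n : ℝ) - 1)) ^ (n - 1) ≤ 11 / 4 := by
      have h3 : (n : ℝ) / ((n : ℝ) - 1) ≤ Real.exp (1 / ((n : ℝ) - 1)) := by
        rw [h1, add_comm]
        exact Real.add_one_le_exp _
      calc ((n : ℝ) / ((n : ℝ) - 1)) ^ (n - 1) ≤ (Real.exp (1 / ((n : ℝ) - 1))) ^ (n - 1) :=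
            pow_le_pow_left₀ (by positivity) h3 _
        _ = Real.exp 1 := by
            rw [← Real.exp_nat_mul, hcast]
            congr 1
            field_simp
        _ ≤ 11 / 4 := by
            have := Real.exp_one_lt_d9
            linarith
    have h4 : (((n : ℝ) - 1) / n) ^ (n - 1) = (((n : ℝ) / ((n : ℝ) - 1)) ^ (n - 1))⁻¹ := by
      rw [← inv_pow, inv_div]
    rw [h4, show (4 / 11 : ℝ) = (11 / 4)⁻¹ by norm_num]
    exact inv_anti₀ (by positivity) h2
  have hnum : ∀ M : ℕ, M * (n - 1) ≤ 4 * n * m → (2 : ℝ) * M ≤ (2 - β) * β ^ (n - 1) := by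
    intro M hM
    have h1 : (2 : ℝ) - β = 2 / n := by
      rw [hβ]; field_simp; ring
    have h2 : β ^ (n - 1) = 2 ^ (n - 1) * (((n : ℝ) - 1) / n) ^ (n - 1) := by
      rw [hβ, mul_div_assoc, mul_pow]
    have h3 : (M : ℝ) * ((n : ℝ) - 1) ≤ 4 * n * m := by
      rw [← hcast]; exact_mod_cast hM
    have h4 : (22 : ℝ) * n ^ 2 * m ≤ ((n : ℝ) - 1) * 2 ^ n := by
      rw [← hcast]; exact_mod_cast hm
    have h5 : (2 : ℝ) ^ n = 2 * 2 ^ (n - 1) := by
      rw [← pow_succ']; congr 1; omega
    rw [h1, h2]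
    have h6 : (2 : ℝ) / n * (2 ^ (n - 1) * (4 / 11)) ≤
        2 / n * (2 ^ (n - 1) * (((n : ℝ) - 1) / n) ^ (n - 1)) := by
      gcongr
    refine le_trans ?_ h6
    have h7 : (2 : ℝ) / n * (2 ^ (n - 1) * (4 / 11)) = 2 ^ n / (11 / 4 * n) := by
      rw [h5]; field_simp
    rw [h7, le_div_iff₀ (by positivity)]
    have h8 : (2 * (M : ℝ) * (11 / 4 * n)) * ((n : ℝ) - 1) ≤ 2 ^ n * ((n : ℝ) - 1) := by
      calc (2 * (M : ℝ) * (11 / 4 * n)) * ((n : ℝ) - 1) =
            11 / 2 * n * ((M : ℝ) * ((n : ℝ) - 1)) := by ring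
        _ ≤ 11 / 2 * n * (4 * n * m) := by gcongr
        _ = 22 * n ^ 2 * m := by ring
        _ ≤ ((n : ℝ) - 1) * 2 ^ n := h4
        _ = 2 ^ n * ((n : ℝ) - 1) := by ring
    exact le_of_mul_le_mul_right h8 hn1
  classical
  induction S using Finset.strongInduction with
  | H S ih =>
    intro i hi
    have hrem : ∀ R : Finset ℕ, R ⊆ S.erase i →
        β ^ R.card * C n m (S.erase i \ R) ≤ C n m (S.erase i) := by
      intro R
      induction R using Finset.induction_on with
      | empty => intro _; simp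
      | insert r R hr ihR =>
        intro hRS
        have h1 := ihR ((subset_insert _ _).trans hRS)
        have hsub : S.erase i \ R ⊂ S := by
          refine (sdiff_subset).trans_ssubset (erase_ssubset hi)
        have h2 := ih _ hsub r (mem_sdiff.2 ⟨hRS (mem_insert_self _ _), hr⟩)
        have h3 : S.erase i \ insert r R = (S.erase i \ R).erase r := by
          ext j
          simp only [mem_sdiff, mem_insert, mem_erase]
          tauto
        rw [card_insert_of_notMem hr, h3, pow_succ, mul_assoc]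
        exact (mul_le_mul_of_nonneg_left h2 (by positivity)).trans h1
    have hk := key1 n m (by omega) S i hi
    set Q := (aps n m).filter (fun q => i ∈ prs n q ∧ prs n q ⊆ S) with hQ
    have hk' : (2 : ℝ) * C n m (S.erase i) ≤ C n m S +
        ∑ q ∈ Q, 2 * (C n m (S \ prs n q) : ℝ) := by
      exact_mod_cast hk
    have hq : ∀ q ∈ Q, β ^ (n - 1) * (C n m (S \ prs n q) : ℝ) ≤ C n m (S.erase i) := by
      intro q hq
      rw [hQ, mem_filter] at hq
      obtain ⟨hq1, hq2, hq3⟩ := hq
      have hq4 : 2 ≤ q.2 := by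
        unfold aps at hq1
        exact (mem_filter.1 hq1).2.1
      have h1 := hrem ((prs n q).erase i) (erase_subset_erase i hq3)
      have h2 : S.erase i \ (prs n q).erase i = S \ prs n q := by
        ext j
        simp only [mem_sdiff, mem_erase]
        constructor
        · rintro ⟨⟨h3, h4⟩, h5⟩
          exact ⟨h4, fun h6 => h5 ⟨h3, h6⟩⟩
        · rintro ⟨h3, h4⟩
          exact ⟨⟨fun h5 => h4 (h5 ▸ hq2), h3⟩, fun h6 => h4 h6.2⟩
      rw [h2, card_erase_of_mem hq2, prs_card hq4] at h1
      exact h1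
    have hsum : β ^ (n - 1) * ∑ q ∈ Q, 2 * (C n m (S \ prs n q) : ℝ) ≤
        β ^ (n - 1) * ((2 - β) * C n m (S.erase i)) := by
      rw [mul_sum]
      calc ∑ q ∈ Q, β ^ (n - 1) * (2 * (C n m (S \ prs n q) : ℝ)) ≤
          ∑ q ∈ Q, 2 * (C n m (S.erase i) : ℝ) := by
            refine sum_le_sum fun q hq' => ?_
            have := hq q hq'
            linarith
        _ = (2 * (Q.card : ℝ)) * C n m (S.erase i) := by
            rw [sum_const, nsmul_eq_mul]; ring
        _ ≤ ((2 - β) * β ^ (n - 1)) * C n m (S.erase i) := by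
            refine mul_le_mul_of_nonneg_right (hnum _ ?_) (Nat.cast_nonneg _)
            refine le_trans (Nat.mul_le_mul_right _ (card_le_card ?_)) (key2 n m (by omega) i)
            intro q hq'
            rw [hQ, mem_filter] at hq'
            exact mem_filter.2 ⟨hq'.1, hq'.2.1⟩
        _ = β ^ (n - 1) * ((2 - β) * C n m (S.erase i)) := by ring
    have hsum' := le_of_mul_le_mul_left hsum (by positivity)
    linarith

theorem good_exists (n m : ℕ) (hn : 3 ≤ n) (hm : 22 * n ^ 2 * m ≤ (n - 1) * 2 ^ n) :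
    ∃ T : Finset ℕ, OK n m (range m) T := by
  classical
  have hpos : ∀ k, 0 < C n m (range k) := by
    intro k
    induction k with
    | zero =>
      unfold C
      rw [card_pos]
      refine ⟨∅, mem_filter.2 ⟨by simp, ?_⟩⟩
      intro q _ hS b _
      have h1 : (prs n q).Nonempty := by
        unfold prs
        rw [image_nonempty, nonempty_range_iff]
        omega
      obtain ⟨j, hj⟩ := h1
      have := hS hj
      simp at this
    | succ k ih =>
      have h1 := growth n m hn hm (range (k + 1)) k (mem_range.2 (Nat.lt_succ_self k))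
      have h2 : (range (k + 1)).erase k = range k := by
        rw [range_add_one, erase_insert notMem_range_self]
      rw [h2] at h1
      have hn1 : (0 : ℝ) < (n : ℝ) - 1 := by
        have : (3 : ℝ) ≤ n := by exact_mod_cast hn
        linarith
      have hn0 : (0 : ℝ) < n := by linarith
      have h3 : (0 : ℝ) < 2 * ((n : ℝ) - 1) / n * C n m (range k) := by
        have : (0 : ℝ) < C n m (range k) := by exact_mod_cast ih
        positivity
      exact_mod_cast h3.trans_le h1
  obtain ⟨T, hT⟩ := card_pos.1 (hpos m)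
  exact ⟨T, (mem_filter.1 hT).2⟩

theorem colr_pair (T : Finset ℕ) (k : ℕ) : colr T (2 * k + 1) = !colr T (2 * k) := by
  unfold colr
  have h1 : (2 * k + 1) / 2 = k := by omega
  have h2 : 2 * k / 2 = k := by omega
  have h3 : (2 * k + 1) % 2 = 1 := by omega
  have h4 : ¬ 2 * k % 2 = 1 := by omega
  rw [h1, h2, h3, decide_eq_false h4]
  cases decide (k ∈ T) <;> rfl

theorem all_n (n : ℕ) (hn : 3 ≤ n) (N : ℕ) (hN : 11 * n ^ 2 * (N + 1) ≤ (n - 1) * 2 ^ n) :
    ∃ c : ℕ → Bool,
      (((Icc 1 N).filter (fun x => c x = true)).card ≤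
          ((Icc 1 N).filter (fun x => c x = false)).card + 1 ∧
        ((Icc 1 N).filter (fun x => c x = false)).card ≤
          ((Icc 1 N).filter (fun x => c x = true)).card + 1) ∧
      ∀ a d : ℕ, 1 ≤ a → 1 ≤ d → a + (n - 1) * d ≤ N →
        ¬ ∃ b, ∀ i, i < n → c (a + i * d) = b := by
  obtain ⟨T, hT⟩ := good_exists n ((N + 1) / 2) hn (by
    have h1 : 2 * ((N + 1) / 2) ≤ N + 1 := Nat.mul_div_le _ _
    calc 22 * n ^ 2 * ((N + 1) / 2) = 11 * n ^ 2 * (2 * ((N + 1) / 2)) := by ring
      _ ≤ 11 * n ^ 2 * (N + 1) := Nat.mul_le_mul_left _ h1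
      _ ≤ _ := hN)
  refine ⟨fun x => colr T (x - 1), ?_, ?_⟩
  · simp only [card_filter]
    have hev : ∀ k, ∑ x ∈ Icc 1 (2 * k), (if colr T (x - 1) = true then 1 else 0) =
        ∑ x ∈ Icc 1 (2 * k), (if colr T (x - 1) = false then 1 else 0) := by
      intro k
      induction k with
      | zero => simp
      | succ k ih =>
        have h1 : 2 * (k + 1) = 2 * k + 1 + 1 := by ring
        rw [h1, sum_Icc_succ_top (by omega), sum_Icc_succ_top (by omega),
          sum_Icc_succ_top (by omega), sum_Icc_succ_top (by omega), ih]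
        have h2 : 2 * k + 1 + 1 - 1 = 2 * k + 1 := by omega
        have h3 : 2 * k + 1 - 1 = 2 * k := by omega
        rw [h2, h3, colr_pair]
        cases colr T (2 * k) <;> simp
    rcases Nat.even_or_odd' N with ⟨k, hk | hk⟩
    · rw [hk, hev k]
      omega
    · rw [hk, sum_Icc_succ_top (by omega), sum_Icc_succ_top (by omega), hev k]
      cases colr T (2 * k + 1 - 1) <;> simp <;> omega
  · rintro a d ha hd had ⟨b, hb⟩
    by_cases hd2 : 2 ≤ d
    · refine hT (a - 1, d) ?_ ?_ b ?_
      · unfold aps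
        have h1 : d ≤ (n - 1) * d := Nat.le_mul_of_pos_left d (by omega)
        rw [mem_filter, mem_product, mem_range, mem_range]
        simp only
        omega
      · intro j hj
        obtain ⟨t, ht, rfl⟩ := mem_image.1 hj
        rw [mem_range] at ht ⊢
        have h1 : t * d ≤ (n - 1) * d := Nat.mul_le_mul_right _ (by omega)
        simp only
        omega
      · intro i hi
        have h1 := hb i hi
        simp only at h1 ⊢
        rw [← h1]
        congr 1
        omega
    · have hd1 : d = 1 := by omega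
      subst hd1
      have h0 := hb 0 (by omega)
      have h1 := hb 1 (by omega)
      have h2 := hb 2 (by omega)
      simp only at h0 h1 h2
      rcases Nat.even_or_odd' (a - 1) with ⟨k, hk | hk⟩
      · have e0 : a + 0 * 1 - 1 = 2 * k := by omega
        have e1 : a + 1 * 1 - 1 = 2 * k + 1 := by omega
        rw [e0] at h0
        rw [e1, colr_pair, h0] at h1
        cases b <;> simp at h1
      · have e1 : a + 1 * 1 - 1 = 2 * (k + 1) := by omega
        have e2 : a + 2 * 1 - 1 = 2 * (k + 1) + 1 := by omega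
        rw [e1] at h1
        rw [e2, colr_pair, h1] at h2
        cases b <;> simp at h2

end Pool.Agent.HVW.AllN
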