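import Pool.Agent.HVW.Defs2

set_option autoImplicit false

namespace Pool.Agent.HVW

open Classical in
/-- MODULE B2 -/
theorem bad2_card (p δ N : ℕ) (s : ℕ → Bool) (hs : Seq p s) (h1 : 1 ≤ δ) (hδp : δ < p) (hp : 2 ≤ p)
    (hN2 : N ≤ p * (2 ^ p - 1)) (hδL : δ < 2 ^ p - 1) :
    ((Finset.range (2 ^ p - 1)).filter (fun a => ¬ Good2 s p δ N a)).card ≤
      δ ^ 2 * 2 ^ δ + 2 * δ ^ 2 := by
  have hT1 := bad_card hs h1 hδp
  have hT2 : ((Finset.range δ ×ˢ Finset.range δ).biUnion fun q =>
      (Finset.range (2 ^ p - 1)).filter (fun a => ∀ i, i < p + 1 - δ →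
        s (a + (N - 1 - q.1 - p * (q.2 + 1)) + i * (q.2 + 1)) = false)).card ≤
      δ ^ 2 * 2 ^ (δ - 1) := by
    refine Finset.card_biUnion_le.trans ?_
    refine (Finset.sum_le_card_nsmul _ _ (2 ^ (δ - 1)) fun q hq => ?_).trans ?_
    · rw [Finset.mem_product, Finset.mem_range, Finset.mem_range] at hq
      convert hs.few δ h1 hδp.le (N - 1 - q.1 - p * (q.2 + 1)) (q.2 + 1) (by omega) (by omega)
    · rw [Finset.card_product, Finset.card_range, smul_eq_mul, sq]
  have hT3 : ((Finset.range δ ×ˢ Finset.range δ).biUnion fun q =>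
      (Finset.range (2 ^ p - 1)).filter (fun a => ∃ d, 1 ≤ d ∧ q.1 + p * d + q.2 + 1 = N ∧
        ∀ i, i < p + 1 - 2 → s (a + (q.1 + d) + i * d) = false)).card ≤
      δ ^ 2 * 2 := by
    refine Finset.card_biUnion_le.trans ?_
    refine (Finset.sum_le_card_nsmul _ _ 2 fun q hq => ?_).trans ?_
    · by_cases hd : ∃ d, 1 ≤ d ∧ q.1 + p * d + q.2 + 1 = N
      · obtain ⟨d, hd1, hd2⟩ := hd
        have hdL : d < 2 ^ p - 1 := by
          by_contra hcon
          push Not at hcon
          have := Nat.mul_le_mul_left p hcon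
          omega
        have h3 := hs.few 2 (by norm_num) hp (q.1 + d) d hd1 hdL
        refine (Finset.card_le_card ?_).trans (h3.trans (by norm_num))
        intro a ha
        rw [Finset.mem_filter] at ha ⊢
        refine ⟨ha.1, ?_⟩
        obtain ⟨d', hd1', hd2', hall⟩ := ha.2
        have h4 : p * d' = p * d := by omega
        have h5 : d' = d := Nat.eq_of_mul_eq_mul_left (by omega) h4
        rw [h5] at hall
        exact hall
      · rw [Finset.filter_eq_empty_iff.mpr, Finset.card_empty]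
        · exact Nat.zero_le _
        · intro a _ hcon
          obtain ⟨d, h5, h6, -⟩ := hcon
          exact hd ⟨d, h5, h6⟩
    · rw [Finset.card_product, Finset.card_range, smul_eq_mul, sq]
  have hsub : (Finset.range (2 ^ p - 1)).filter (fun a => ¬ Good2 s p δ N a) ⊆
      ((Finset.range (2 ^ p - 1)).filter (fun a => ¬ Good s p δ a)) ∪
      (((Finset.range δ ×ˢ Finset.range δ).biUnion fun q =>
      (Finset.range (2 ^ p - 1)).filter (fun a => ∀ i, i < p + 1 - δ →
        s (a + (N - 1 - q.1 - p * (q.2 + 1)) + i * (q.2 + 1)) = false)) ∪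
      ((Finset.range δ ×ˢ Finset.range δ).biUnion fun q =>
      (Finset.range (2 ^ p - 1)).filter (fun a => ∃ d, 1 ≤ d ∧ q.1 + p * d + q.2 + 1 = N ∧
        ∀ i, i < p + 1 - 2 → s (a + (q.1 + d) + i * d) = false))) := by
    intro a ha
    rw [Finset.mem_filter] at ha
    obtain ⟨ha1, ha2⟩ := ha
    rw [Finset.mem_union, Finset.mem_union]
    unfold Good2 at ha2
    by_cases hA : Good s p δ a
    · right
      by_cases hB : ∀ u, u < δ → ∀ d, 1 ≤ d → d ≤ δ →
          ¬ ∀ i, i < p + 1 - δ → s (a + (N - 1 - u - p * d) + i * d) = false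
      · right
        have hC : ¬ (∀ x, x < δ → ∀ u, u < δ → ∀ d, 1 ≤ d → x + p * d + u + 1 = N →
            ¬ ∀ i, i < p + 1 - 2 → s (a + (x + d) + i * d) = false) :=
          fun hC => ha2 ⟨hA, hB, hC⟩
        push Not at hC
        obtain ⟨x, hx, u, hu, d, hd, hN, hall⟩ := hC
        rw [Finset.mem_biUnion]
        refine ⟨(x, u), ?_, ?_⟩
        · rw [Finset.mem_product, Finset.mem_range, Finset.mem_range]
          exact ⟨hx, hu⟩
        · rw [Finset.mem_filter]
          exact ⟨ha1, d, hd, hN, hall⟩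
      · left
        push Not at hB
        obtain ⟨u, hu, d, hd1, hd2, hall⟩ := hB
        rw [Finset.mem_biUnion]
        refine ⟨(u, d - 1), ?_, ?_⟩
        · rw [Finset.mem_product, Finset.mem_range, Finset.mem_range]
          exact ⟨hu, by omega⟩
        · rw [Finset.mem_filter]
          refine ⟨ha1, fun i hi => ?_⟩
          have h1 : d - 1 + 1 = d := by omega
          simp only [h1]
          exact hall i hi
    · left
      rw [Finset.mem_filter]
      exact ⟨ha1, hA⟩
  have hcard := Finset.card_le_card hsub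
  have hu1 := Finset.card_union_le ((Finset.range (2 ^ p - 1)).filter (fun a => ¬ Good s p δ a))
      (((Finset.range δ ×ˢ Finset.range δ).biUnion fun q =>
      (Finset.range (2 ^ p - 1)).filter (fun a => ∀ i, i < p + 1 - δ →
        s (a + (N - 1 - q.1 - p * (q.2 + 1)) + i * (q.2 + 1)) = false)) ∪
      ((Finset.range δ ×ˢ Finset.range δ).biUnion fun q =>
      (Finset.range (2 ^ p - 1)).filter (fun a => ∃ d, 1 ≤ d ∧ q.1 + p * d + q.2 + 1 = N ∧
        ∀ i, i < p + 1 - 2 → s (a + (q.1 + d) + i * d) = false)))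
  have hu2 := Finset.card_union_le
      ((Finset.range δ ×ˢ Finset.range δ).biUnion fun q =>
      (Finset.range (2 ^ p - 1)).filter (fun a => ∀ i, i < p + 1 - δ →
        s (a + (N - 1 - q.1 - p * (q.2 + 1)) + i * (q.2 + 1)) = false))
      ((Finset.range δ ×ˢ Finset.range δ).biUnion fun q =>
      (Finset.range (2 ^ p - 1)).filter (fun a => ∃ d, 1 ≤ d ∧ q.1 + p * d + q.2 + 1 = N ∧
        ∀ i, i < p + 1 - 2 → s (a + (q.1 + d) + i * d) = false))
  have hpow : δ ^ 2 * 2 ^ δ = δ ^ 2 * 2 ^ (δ - 1) + δ ^ 2 * 2 ^ (δ - 1) := by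
    have : 2 ^ δ = 2 * 2 ^ (δ - 1) := by rw [← pow_succ']; congr 1; omega
    rw [this]; ring
  rw [hpow]
  calc _ ≤ _ := hcard
    _ ≤ _ := hu1
    _ ≤ δ ^ 2 * 2 ^ (δ - 1) + (δ ^ 2 * 2 ^ (δ - 1) + δ ^ 2 * 2) := by
        refine Nat.add_le_add ?_ (hu2.trans (Nat.add_le_add hT2 hT3))
        convert hT1
    _ = _ := by ring

end Pool.Agent.HVW
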