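import Pool.Agent.HVW.CombA

set_option autoImplicit false

namespace Pool.Agent.HVW

open Finset

variable {p N δ : ℕ} {s : ℕ → Bool}

private def v (s : ℕ → Bool) (y : ℕ) : ℤ := if s y = true then 1 else -1

private theorem v_le (y : ℕ) : v s y ≤ 1 ∧ -1 ≤ v s y := by
  unfold v; split_ifs <;> omega

private theorem v_sum (hs : Seq p s) (hp : 1 ≤ p) (x : ℕ) :
    ∑ a ∈ range (2 ^ p - 1), v s (a + x) = 1 := by
  have h1 := hs.count x
  have h2 : ∑ a ∈ range (2 ^ p - 1), v s (a + x) =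
      ∑ a ∈ range (2 ^ p - 1), ((if s (a + x) = true then (2 : ℤ) else 0) - 1) := by
    refine sum_congr rfl fun a _ => ?_
    unfold v; split_ifs <;> norm_num
  rw [h2, sum_sub_distrib, ← sum_filter, sum_const, h1, sum_const, card_range]
  have h3 : 2 ^ p = 2 * 2 ^ (p - 1) := by rw [← pow_succ']; congr 1; omega
  have h4 : 1 ≤ 2 ^ (p - 1) := Nat.one_le_two_pow
  rw [h3]
  generalize 2 ^ (p - 1) = A at h4 ⊢
  simp only [nsmul_eq_mul, mul_one]
  omega

private theorem E_eq (a j : ℕ) :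
    E s N a j = ∑ x ∈ range N, (if x < j then (-1 : ℤ) else v s (a + x)) := by
  unfold E
  refine sum_congr rfl fun x _ => ?_
  unfold col v
  split_ifs <;> simp_all

private theorem E_zero (a : ℕ) : E s N a 0 = ∑ x ∈ range N, v s (a + x) := by
  rw [E_eq]
  exact sum_congr rfl fun x _ => by rw [if_neg (Nat.not_lt_zero _)]

private theorem E_step (a j : ℕ) : E s N a j - 2 ≤ E s N a (j + 1) := by
  have h1 : E s N a (j + 1) =
      E s N a j - ∑ x ∈ range N, (if x = j then v s (a + j) + 1 else 0) := by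
    rw [E_eq, E_eq, ← sum_sub_distrib]
    refine sum_congr rfl fun x _ => ?_
    rcases lt_trichotomy x j with h | h | h
    · rw [if_pos (by omega), if_pos h, if_neg (by omega)]; ring
    · subst h
      rw [if_pos (by omega), if_neg (by omega), if_pos rfl]; ring
    · rw [if_neg (by omega), if_neg (by omega), if_neg (by omega)]; ring
  rw [h1, sum_ite_eq']
  have := v_le (s := s) (a + j)
  split_ifs <;> omega

private theorem E_shift (a : ℕ) :
    E s N (a + 1) 0 ≤ E s N a 0 + 2 ∧ E s N a 0 - 2 ≤ E s N (a + 1) 0 := by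
  have h1 : E s N (a + 1) 0 + v s a = E s N a 0 + v s (a + N) := by
    rw [E_zero, E_zero]
    have h2 := sum_range_succ (fun x => v s (a + x)) N
    rw [sum_range_succ'] at h2
    rw [← h2, Nat.add_zero]
    congr 1
    exact sum_congr rfl fun x _ => by congr 1; ring
  have h2 := v_le (s := s) a
  have h3 := v_le (s := s) (a + N)
  constructor <;> omega

private theorem E_per (hs : Seq p s) (a : ℕ) : E s N (a + (2 ^ p - 1)) 0 = E s N a 0 := by
  rw [E_zero, E_zero]
  refine sum_congr rfl fun x _ => ?_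
  unfold v
  have : a + (2 ^ p - 1) + x = (a + x) + (2 ^ p - 1) := by ring
  rw [this, hs.per]

private theorem E_sum0 (hs : Seq p s) (hp : 1 ≤ p) :
    ∑ a ∈ range (2 ^ p - 1), E s N a 0 = N := by
  simp only [E_zero]
  rw [sum_comm]
  simp only [v_sum hs hp, sum_const, card_range, nsmul_eq_mul, mul_one]

private theorem E_sumδ (hs : Seq p s) (hp : 1 ≤ p) (hδN : δ ≤ N) (hN : N ≤ δ * 2 ^ p) :
    ∑ a ∈ range (2 ^ p - 1), E s N a δ ≤ 0 := by
  simp only [E_eq]
  rw [sum_comm]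
  have h1 : ∀ x ∈ range N, ∑ a ∈ range (2 ^ p - 1), (if x < δ then (-1 : ℤ) else v s (a + x)) =
      1 - (if x < δ then (2 : ℤ) ^ p else 0) := by
    intro x _
    split_ifs with h
    · rw [sum_const, card_range, nsmul_eq_mul, mul_neg_one]
      have h4 : 1 ≤ 2 ^ p := Nat.one_le_two_pow
      push_cast [Nat.cast_sub h4]
      ring
    · rw [v_sum hs hp]; ring
  rw [sum_congr rfl h1, sum_sub_distrib, ← sum_filter, sum_const, sum_const, card_range]
  have h2 : (range N).filter (fun x => x < δ) = range δ := by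
    ext x
    simp only [mem_filter, mem_range]
    omega
  rw [h2, card_range]
  simp only [nsmul_eq_mul, mul_one]
  have : (N : ℤ) ≤ δ * 2 ^ p := by exact_mod_cast hN
  linarith

private theorem walk_up (f : ℕ → ℤ) (hf : ∀ k, f (k + 1) ≤ f k + 2) (m n : ℕ) (hmn : m ≤ n)
    (h1 : f m ≤ 1) (h2 : -1 ≤ f n) : ∃ k, -1 ≤ f k ∧ f k ≤ 1 := by
  induction n, hmn using Nat.le_induction with
  | base => exact ⟨m, h2, h1⟩
  | succ n _ ih =>
    by_cases h3 : -1 ≤ f n
    · exact ih h3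
    · exact ⟨n + 1, h2, by have := hf n; omega⟩

private theorem walk_down (f : ℕ → ℤ) (hf : ∀ k, f k - 2 ≤ f (k + 1)) (n : ℕ)
    (h1 : -1 ≤ f 0) (h2 : f n ≤ 1) : ∃ k, k ≤ n ∧ -1 ≤ f k ∧ f k ≤ 1 := by
  induction n with
  | zero => exact ⟨0, le_rfl, h1, h2⟩
  | succ n ih =>
    by_cases h3 : f n ≤ 1
    · obtain ⟨k, hk, h4⟩ := ih h3
      exact ⟨k, by omega, h4⟩
    · exact ⟨n + 1, le_rfl, by have := hf n; omega, h2⟩

private theorem fin_zero (hs : Seq p s) (hN2 : N ≤ p * (2 ^ p - 1)) (a : ℕ)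
    (h1 : -1 ≤ E s N a 0) (h2 : E s N a 0 ≤ 1) :
    ∃ c : ℕ → Bool, |∑ x ∈ Finset.range N, (if c x = true then (1 : ℤ) else -1)| ≤ 1 ∧
      ∀ x d, 1 ≤ d → x + p * d < N → ¬ ∃ b, ∀ i, i < p + 1 → c (x + i * d) = b := by
  refine ⟨col s a 0, abs_le.mpr ⟨h1, h2⟩, fun x d hd h => ?_⟩
  rintro ⟨b, hb⟩
  cases b
  · exact no_false0 hs hN2 a x d hd h hb
  · exact no_true hs hN2 a 0 x d hd h hb

/-- MODULE Comb -/
theorem comb (p δ N : ℕ) (s : ℕ → Bool) (hs : Seq p s) (h1 : 1 ≤ δ) (hδp : δ < p)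
    (hδ : δ ^ 3 * 2 ^ δ ≤ 2 ^ p) (hN : N ≤ δ * 2 ^ p) (hN2 : N ≤ p * (2 ^ p - 1)) :
    ∃ c : ℕ → Bool, |∑ x ∈ Finset.range N, (if c x = true then (1 : ℤ) else -1)| ≤ 1 ∧
      ∀ x d, 1 ≤ d → x + p * d < N → ¬ ∃ b, ∀ i, i < p + 1 → c (x + i * d) = b := by
  classical
  have hp : 1 ≤ p := by omega
  have hsum0 := E_sum0 (N := N) hs hp
  by_cases hA : ∃ a ∈ range (2 ^ p - 1), E s N a 0 ≤ 1
  · obtain ⟨a, ha, hE⟩ := hA
    -- some `a'` with `E ≥ -1`
    have hA' : ∃ a' ∈ range (2 ^ p - 1), -1 ≤ E s N a' 0 := by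
      by_contra hcon
      push Not at hcon
      have h2 : ∑ a ∈ range (2 ^ p - 1), E s N a 0 ≤ ∑ a ∈ range (2 ^ p - 1), (-1 : ℤ) :=
        sum_le_sum fun b hb => by have := hcon b hb; omega
      rw [hsum0, sum_const, card_range, nsmul_eq_mul] at h2
      have h3 : 1 ≤ 2 ^ p - 1 := by
        have : p < 2 ^ p := Nat.lt_two_pow_self
        omega
      have h4 : (0 : ℤ) ≤ N := Int.natCast_nonneg N
      have h5 : (1 : ℤ) ≤ ((2 ^ p - 1 : ℕ) : ℤ) := by exact_mod_cast h3
      linarith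
    obtain ⟨a', ha', hE'⟩ := hA'
    rw [mem_range] at ha ha'
    obtain ⟨k, h2, h3⟩ := walk_up (fun k => E s N k 0) (fun k => (E_shift k).1) a
      (a' + (2 ^ p - 1)) (by omega) hE (by rw [E_per hs]; exact hE')
    exact fin_zero hs hN2 k h2 h3
  · push Not at hA
    have hL : p < 2 ^ p := Nat.lt_two_pow_self
    have hδN : δ ≤ N := by
      have h2 : ∑ a ∈ range (2 ^ p - 1), (2 : ℤ) ≤ ∑ a ∈ range (2 ^ p - 1), E s N a 0 :=
        sum_le_sum fun b hb => by have := hA b hb; omega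
      rw [hsum0, sum_const, card_range, nsmul_eq_mul] at h2
      have h3 : (2 ^ p - 1) * 2 ≤ N := by exact_mod_cast h2
      omega
    have hsumδ := E_sumδ hs hp hδN hN
    have hstep : ∀ a, E s N a 0 - 2 * δ ≤ E s N a δ := by
      intro a
      have : ∀ j : ℕ, E s N a 0 - 2 * j ≤ E s N a j := by
        intro j
        induction j with
        | zero => simp
        | succ j ih => have := E_step (s := s) (N := N) a j; push_cast; linarith
      exact this δ
    obtain ⟨a, ha, hg, hE⟩ : ∃ a ∈ range (2 ^ p - 1), Good s p δ a ∧ E s N a δ ≤ 1 := by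
      by_contra hcon
      push Not at hcon
      have h2 : ∀ a ∈ range (2 ^ p - 1),
          2 - (if ¬ Good s p δ a then 2 * (δ : ℤ) else 0) ≤ E s N a δ := by
        intro a ha
        by_cases hg : Good s p δ a
        · rw [if_neg (not_not.mpr hg)]
          have := hcon a ha hg
          omega
        · rw [if_pos hg]
          have h3 := hA a ha
          have h4 := hstep a
          omega
      have h3 := sum_le_sum h2
      rw [sum_sub_distrib, ← sum_filter, sum_const, sum_const, card_range] at h3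
      simp only [nsmul_eq_mul] at h3
      have h4 : (((range (2 ^ p - 1)).filter (fun a => ¬ Good s p δ a)).card : ℤ) ≤
          δ ^ 2 * 2 ^ (δ - 1) := by exact_mod_cast bad_card hs h1 hδp
      have h5 : (δ : ℤ) ^ 2 * 2 ^ (δ - 1) * (2 * δ) = δ ^ 3 * 2 ^ δ := by
        obtain ⟨e, rfl⟩ : ∃ e, δ = e + 1 := ⟨δ - 1, by omega⟩
        rw [Nat.add_sub_cancel, pow_succ (2 : ℤ) e]
        ring
      have h6 : (δ : ℤ) ^ 3 * 2 ^ δ ≤ 2 ^ p := by exact_mod_cast hδ
      have h7 : (0 : ℤ) ≤ δ := Int.natCast_nonneg δ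
      have h8 : (((range (2 ^ p - 1)).filter (fun a => ¬ Good s p δ a)).card : ℤ) * (2 * δ) ≤
          δ ^ 2 * 2 ^ (δ - 1) * (2 * δ) := mul_le_mul_of_nonneg_right h4 (by linarith)
      have h9 : (((2 ^ p - 1 : ℕ)) : ℤ) = 2 ^ p - 1 := by
        rw [Nat.cast_sub Nat.one_le_two_pow]; push_cast; ring
      rw [h9] at h3
      have h10 : (4 : ℤ) ≤ 2 ^ p := by
        have : 2 ^ 2 ≤ 2 ^ p := Nat.pow_le_pow_right (by norm_num) (by omega)
        exact_mod_cast this
      linarith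
    obtain ⟨j, hj, h3, h4⟩ := walk_down (fun j => E s N a j) (fun j => E_step a j) δ
      (by have := hA a ha; omega) hE
    refine ⟨col s a j, abs_le.mpr ⟨h3, h4⟩, fun x d hd h => ?_⟩
    rintro ⟨b, hb⟩
    cases b
    · exact no_falsej hs hN2 a j x d hd h h1 hδp hg hj hb
    · exact no_true hs hN2 a j x d hd h hb

end Pool.Agent.HVW
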