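import Mathlib

set_option autoImplicit false

namespace Pool.Agent.HVW

/-- A periodic 0/1 sequence (period `2^p - 1`) with the properties of the Berlekamp construction. -/
structure Seq (p : ℕ) (s : ℕ → Bool) : Prop where
  per : ∀ m, s (m + (2 ^ p - 1)) = s m
  zeros : ∀ y d, 1 ≤ d → d < 2 ^ p - 1 → ¬ ∀ i, i < p → s (y + i * d) = false
  ones : ∀ y d, 1 ≤ d → d < 2 ^ p - 1 → ¬ ∀ i, i < p + 1 → s (y + i * d) = true
  count : ∀ x, ((Finset.range (2 ^ p - 1)).filter (fun a => s (a + x) = true)).card = 2 ^ (p - 1)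
  few : ∀ δ, 1 ≤ δ → δ ≤ p → ∀ y d, 1 ≤ d → d < 2 ^ p - 1 →
    ((Finset.range (2 ^ p - 1)).filter
      (fun a => ∀ i, i < p + 1 - δ → s (a + y + i * d) = false)).card ≤ 2 ^ (δ - 1)

/-- The colouring: zero (false) on the first `j` positions, then the shifted sequence. -/
def col (s : ℕ → Bool) (a j x : ℕ) : Bool := if x < j then false else s (a + x)

/-- ones minus zeros among the first `N` positions. -/
def E (s : ℕ → Bool) (N a j : ℕ) : ℤ := ∑ x ∈ Finset.range N, (if col s a j x = true then (1 : ℤ) else -1)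

end Pool.Agent.HVW
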