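import Mathlib
import Pool.Agent.HVW.Defs

set_option autoImplicit false

namespace Pool.Agent.HVW

open Module

theorem zmod2 (c : ZMod 2) : c = 0 ∨ c = 1 := by revert c; decide

theorem zmod2a : (1 : ZMod 2) + 1 = 0 := by decide

theorem zmod2b : (0 : ZMod 2) - 1 = 1 := by decide

theorem core {K : Type} [Field K] [Algebra (ZMod 2) K] [FiniteDimensional (ZMod 2) K]
    {p : ℕ} (hp : p.Prime) (hK : finrank (ZMod 2) K = p)
    (f : K →ₗ[ZMod 2] ZMod 2) (hf : f 1 ≠ 0) (β : K) (h0 : β ≠ 0) (h1 : β ≠ 1) (z : K)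
    (hz : ∀ i, i < p → f (z * β ^ i) = 0) : z = 0 := by
  have : Fact (Nat.Prime 2) := ⟨Nat.prime_two⟩
  have hint : IsIntegral (ZMod 2) β := Algebra.IsIntegral.isIntegral β
  have hdvd : (minpoly (ZMod 2) β).natDegree ∣ p := by
    have := minpoly.degree_dvd hint
    rwa [hK] at this
  have hne : (minpoly (ZMod 2) β).natDegree ≠ 1 := by
    intro h
    rw [minpoly.natDegree_eq_one_iff] at h
    obtain ⟨c, hc⟩ := h
    rcases zmod2 c with rfl | rfl
    · exact h0 (by rw [← hc, map_zero])
    · exact h1 (by rw [← hc, map_one])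
  have hdeg : (minpoly (ZMod 2) β).natDegree = p := by
    rcases (Nat.dvd_prime hp).1 hdvd with h | h
    · exact absurd h hne
    · exact h
  by_contra hz0
  have hli := linearIndependent_pow (K := ZMod 2) β
  have hspan : Submodule.span (ZMod 2)
      (Set.range (fun i : Fin (minpoly (ZMod 2) β).natDegree => β ^ (i : ℕ))) = ⊤ := by
    have : Nonempty (Fin (minpoly (ZMod 2) β).natDegree) := ⟨⟨0, by rw [hdeg]; exact hp.pos⟩⟩
    apply hli.span_eq_top_of_card_eq_finrank
    rw [Fintype.card_fin, hdeg, hK]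
  have hg : f ∘ₗ (LinearMap.mulLeft (ZMod 2) z) = 0 := by
    apply LinearMap.ext_on hspan
    rintro _ ⟨i, rfl⟩
    have := hz i (by rw [← hdeg]; exact i.2)
    simpa using this
  apply hf
  have := LinearMap.congr_fun hg z⁻¹
  simpa [mul_inv_cancel₀ hz0] using this

theorem exists_seq (p : ℕ) (hp : p.Prime) : ∃ s : ℕ → Bool, Seq p s := by
  classical
  have : Fact (Nat.Prime 2) := ⟨Nat.prime_two⟩
  let K : Type := GaloisField 2 p
  letI : Fintype K := Fintype.ofFinite K
  have hcard : Fintype.card K = 2 ^ p := by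
    rw [← Nat.card_eq_fintype_card]; exact GaloisField.card 2 p hp.ne_zero
  have hK : finrank (ZMod 2) K = p := GaloisField.finrank 2 hp.ne_zero
  have : FiniteDimensional (ZMod 2) K := Module.finite_of_finrank_pos (by rw [hK]; exact hp.pos)
  obtain ⟨f, hf⟩ : ∃ f : K →ₗ[ZMod 2] ZMod 2, f 1 ≠ 0 := by
    by_contra hcon
    push Not at hcon
    exact one_ne_zero ((Module.forall_dual_apply_eq_zero_iff (ZMod 2) (1 : K)).1 hcon)
  obtain ⟨u, hu⟩ := IsCyclic.exists_generator (α := Kˣ)
  have hL : Nat.card Kˣ = 2 ^ p - 1 := by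
    rw [Nat.card_units, Nat.card_eq_fintype_card, hcard]
  have hord : orderOf u = 2 ^ p - 1 := by
    rw [orderOf_eq_card_of_forall_mem_zpowers hu, hL]
  have hLpos : 0 < 2 ^ p - 1 := by
    have : 2 ^ 1 ≤ 2 ^ p := Nat.pow_le_pow_right (by norm_num) hp.one_le
    omega
  have hper : u ^ (2 ^ p - 1) = 1 := by rw [← hord]; exact pow_orderOf_eq_one u
  let s : ℕ → Bool := fun m => decide (f ((u ^ m : Kˣ) : K) = 1)
  have hs1 : ∀ m, s m = true ↔ f ((u ^ m : Kˣ) : K) = 1 := fun m => by simp [s]
  have hs0 : ∀ m, s m = false ↔ f ((u ^ m : Kˣ) : K) = 0 := by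
    intro m
    rw [← Bool.not_eq_true, hs1]
    rcases zmod2 (f ((u ^ m : Kˣ) : K)) with h | h
    · rw [h]; simp
    · rw [h]; simp
  have hβ : ∀ d, 1 ≤ d → d < 2 ^ p - 1 → ((u ^ d : Kˣ) : K) ≠ 1 := by
    intro d h1 h2 h
    have h3 : u ^ d = 1 := Units.ext h
    have := orderOf_dvd_of_pow_eq_one h3
    rw [hord] at this
    exact absurd (Nat.le_of_dvd h1 this) (by omega)
  have hpow : ∀ y i d, ((u ^ (y + i * d) : Kˣ) : K) = ((u ^ y : Kˣ) : K) * ((u ^ d : Kˣ) : K) ^ i := by
    intro y i d
    push_cast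
    rw [pow_add, mul_comm i d, pow_mul]
  have hcore : ∀ d, 1 ≤ d → d < 2 ^ p - 1 → ∀ z : K,
      (∀ i, i < p → f (z * ((u ^ d : Kˣ) : K) ^ i) = 0) → z = 0 := fun d h1 h2 z hz =>
    core hp hK f hf _ (Units.ne_zero _) (hβ d h1 h2) z hz
  refine ⟨s, ?_, ?_, ?_, ?_, ?_⟩
  · intro m
    simp only [s]
    rw [pow_add, hper, mul_one]
  · intro y d h1 h2 hall
    refine Units.ne_zero (u ^ y) (hcore d h1 h2 _ (fun i hi => ?_))
    rw [← hpow]
    exact (hs0 _).1 (hall i hi)
  · intro y d h1 h2 hall
    have hz := hcore d h1 h2 (((u ^ y : Kˣ) : K) * (((u ^ d : Kˣ) : K) - 1)) (fun i hi => ?_)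
    · rcases mul_eq_zero.1 hz with h | h
      · exact Units.ne_zero _ h
      · exact hβ d h1 h2 (sub_eq_zero.1 h)
    · have e : ((u ^ y : Kˣ) : K) * (((u ^ d : Kˣ) : K) - 1) * ((u ^ d : Kˣ) : K) ^ i =
          ((u ^ (y + (i + 1) * d) : Kˣ) : K) - ((u ^ (y + i * d) : Kˣ) : K) := by
        rw [hpow, hpow]; ring
      rw [e, map_sub, (hs1 _).1 (hall (i + 1) (by omega)), (hs1 _).1 (hall i (by omega)), sub_self]
  · intro x
    have hbij : ((Finset.range (2 ^ p - 1)).filter (fun a => s (a + x) = true)).card =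
        ((Finset.univ : Finset K).filter (fun z => f z = 1)).card := by
      apply Finset.card_bij (fun a _ => ((u ^ (a + x) : Kˣ) : K))
      · intro a ha
        rw [Finset.mem_filter] at ha ⊢
        exact ⟨Finset.mem_univ _, (hs1 _).1 ha.2⟩
      · intro a ha b hb hab
        rw [Finset.mem_filter, Finset.mem_range] at ha hb
        have h1 : u ^ (a + x) = u ^ (b + x) := Units.ext hab
        rw [pow_add, pow_add, mul_left_inj] at h1
        exact pow_injOn_Iio_orderOf (by rw [hord]; exact ha.1) (by rw [hord]; exact hb.1) h1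
      · intro z hz
        rw [Finset.mem_filter] at hz
        have hz0 : z ≠ 0 := by
          rintro rfl
          simp at hz
        obtain ⟨k, hk⟩ : ∃ k : ℕ, u ^ k = Units.mk0 z hz0 * (u ^ x)⁻¹ := by
          have := hu (Units.mk0 z hz0 * (u ^ x)⁻¹)
          rw [← mem_powers_iff_mem_zpowers] at this
          exact this
        refine ⟨k % (2 ^ p - 1), ?_, ?_⟩
        · rw [Finset.mem_filter, Finset.mem_range]
          refine ⟨Nat.mod_lt _ hLpos, (hs1 _).2 ?_⟩
          rw [pow_add, ← hord, pow_mod_orderOf, hk]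
          simpa using hz.2
        · rw [pow_add, ← hord, pow_mod_orderOf, hk]
          simp
    rw [hbij]
    -- half of the field
    have h2 : ((Finset.univ : Finset K).filter (fun z => f z = 1)).card =
        ((Finset.univ : Finset K).filter (fun z => f z = 0)).card := by
      apply Finset.card_bij (fun z _ => z + 1)
      · intro a ha
        rw [Finset.mem_filter] at ha ⊢
        refine ⟨Finset.mem_univ _, ?_⟩
        have h1 : f 1 = 1 := (zmod2 (f 1)).resolve_left hf
        rw [map_add, ha.2, h1]; exact zmod2a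
      · intro a _ b _ hab
        exact add_right_cancel hab
      · intro z hz
        rw [Finset.mem_filter] at hz
        refine ⟨z - 1, ?_, by ring⟩
        rw [Finset.mem_filter]
        refine ⟨Finset.mem_univ _, ?_⟩
        have h1 : f 1 = 1 := (zmod2 (f 1)).resolve_left hf
        rw [map_sub, hz.2, h1]; exact zmod2b
    have h3 : ((Finset.univ : Finset K).filter (fun z => f z = 1)).card +
        ((Finset.univ : Finset K).filter (fun z => f z = 0)).card = 2 ^ p := by
      rw [← hcard, ← Finset.card_univ, ← Finset.card_filter_add_card_filter_not (s := Finset.univ) (p := fun z : K => f z = 1)]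
      congr 1
      congr 1
      ext z
      simp only [Finset.mem_filter, Finset.mem_univ, true_and]
      rcases zmod2 (f z) with h | h <;> rw [h] <;> simp
    have h4 : 2 ^ p = 2 * 2 ^ (p - 1) := by
      rw [← pow_succ']; congr 1; have := hp.pos; omega
    omega
  · intro δ hδ1 hδp y d h1 h2
    have hinj : ((Finset.range (2 ^ p - 1)).filter
        (fun a => ∀ i, i < p + 1 - δ → s (a + y + i * d) = false)).card ≤
        (Finset.univ : Finset (Fin (δ - 1) → ZMod 2)).card := by
      apply Finset.card_le_card_of_injOn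
        (fun a => fun i : Fin (δ - 1) => f ((u ^ (a + y + (p + 1 - δ + i) * d) : Kˣ) : K))
      · intro a _; exact Finset.mem_coe.2 (Finset.mem_univ _)
      · intro a ha b hb hab
        rw [Finset.mem_coe, Finset.mem_filter, Finset.mem_range] at ha hb
        have hz := hcore d h1 h2 (((u ^ (a + y) : Kˣ) : K) - ((u ^ (b + y) : Kˣ) : K)) (fun i hi => ?_)
        · have h3 : u ^ (a + y) = u ^ (b + y) := Units.ext (sub_eq_zero.1 hz)
          rw [pow_add, pow_add, mul_left_inj] at h3
          exact pow_injOn_Iio_orderOf (by rw [hord]; exact ha.1) (by rw [hord]; exact hb.1) h3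
        · rw [sub_mul, ← hpow, ← hpow, map_sub]
          by_cases hi2 : i < p + 1 - δ
          · rw [(hs0 _).1 (ha.2 i hi2), (hs0 _).1 (hb.2 i hi2), sub_zero]
          · have h5 := congrFun hab ⟨i - (p + 1 - δ), by omega⟩
            have e : p + 1 - δ + (i - (p + 1 - δ)) = i := by omega
            simp only [e] at h5
            rw [h5, sub_self]
    refine hinj.trans ?_
    rw [Finset.card_univ, Fintype.card_fun, ZMod.card, Fintype.card_fin]

end Pool.Agent.HVW
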