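import Mathlib
import Pool.Agent.HVW.Defs
import Pool.Agent.HVW.Field
import Pool.Agent.HVW.Comb

set_option autoImplicit false

namespace Pool.Agent.HVW

theorem card_shift (N : ℕ) (c : ℕ → Bool) (b : Bool) :
    ((Finset.Icc 1 N).filter (fun x => c (x - 1) = b)).card =
      ((Finset.range N).filter (fun x => c x = b)).card := by
  symm
  apply Finset.card_bij (fun x _ => x + 1)
  · intro x hx
    rw [Finset.mem_filter, Finset.mem_range] at hx
    rw [Finset.mem_filter, Finset.mem_Icc]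
    exact ⟨⟨by omega, by omega⟩, by rw [Nat.add_sub_cancel]; exact hx.2⟩
  · intro x _ y _ h
    exact Nat.add_right_cancel h
  · intro y hy
    rw [Finset.mem_filter, Finset.mem_Icc] at hy
    refine ⟨y - 1, ?_, by omega⟩
    rw [Finset.mem_filter, Finset.mem_range]
    exact ⟨by omega, hy.2⟩

theorem base33 (p δ : ℕ) (hp : p.Prime) (hδ : δ ^ 3 * 2 ^ δ ≤ 2 ^ p) (N : ℕ)
    (hN : ∀ c : ℕ → Bool,
      ((Finset.Icc 1 N).filter (fun x => c x = true)).card ≤
        ((Finset.Icc 1 N).filter (fun x => c x = false)).card + 1 →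
      ((Finset.Icc 1 N).filter (fun x => c x = false)).card ≤
        ((Finset.Icc 1 N).filter (fun x => c x = true)).card + 1 →
      ∃ a d : ℕ, 1 ≤ a ∧ 1 ≤ d ∧ a + p * d ≤ N ∧ ∃ b, ∀ i, i < p + 1 → c (a + i * d) = b) :
    δ * 2 ^ p < N := by
  by_contra hcon
  push Not at hcon
  have hp2 := hp.two_le
  rcases Nat.eq_zero_or_pos δ with h0 | h1
  · subst h0
    have hN0 : N = 0 := by omega
    subst hN0
    obtain ⟨a, d, ha, hd, hle, _⟩ := hN (fun _ => true) (by simp) (by simp)
    omega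
  have hδp : δ < p := by
    by_contra h
    push Not at h
    have h2 : 2 ^ p ≤ 2 ^ δ := Nat.pow_le_pow_right (by norm_num) h
    have h3 : 2 ^ 3 ≤ δ ^ 3 := Nat.pow_le_pow_left (by omega) 3
    have h4 : 2 ^ 3 * 2 ^ p ≤ δ ^ 3 * 2 ^ δ := Nat.mul_le_mul h3 h2
    have h5 : 0 < 2 ^ p := by positivity
    omega
  have hN2 : N ≤ p * (2 ^ p - 1) := by
    have h2 : p < 2 ^ p := Nat.lt_two_pow_self
    have h3 : δ * 2 ^ p ≤ (p - 1) * 2 ^ p := Nat.mul_le_mul_right _ (by omega)
    have h4 : (p - 1) * 2 ^ p + 2 ^ p = p * 2 ^ p := by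
      rw [← Nat.succ_mul, Nat.succ_eq_add_one, Nat.sub_add_cancel (by omega)]
    have h5 : p * (2 ^ p - 1) + p = p * 2 ^ p := by
      rw [← Nat.mul_succ, Nat.succ_eq_add_one, Nat.sub_add_cancel (by omega)]
    omega
  obtain ⟨s, hs⟩ := exists_seq p hp
  obtain ⟨c, hc1, hc2⟩ := comb p δ N s hs h1 hδp hδ hcon hN2
  have hsum : ∑ x ∈ Finset.range N, (if c x = true then (1 : ℤ) else -1) =
      (((Finset.range N).filter (fun x => c x = true)).card : ℤ) -
        (((Finset.range N).filter (fun x => c x = false)).card : ℤ) := by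
    rw [Finset.sum_ite, Finset.sum_const, Finset.sum_const]
    simp only [Bool.not_eq_true, nsmul_eq_mul, mul_one, mul_neg]
    ring
  rw [hsum, abs_le] at hc1
  obtain ⟨a, d, ha, hd, hle, b, hb⟩ := hN (fun x => c (x - 1))
    (by rw [card_shift, card_shift]; omega) (by rw [card_shift, card_shift]; omega)
  refine hc2 (a - 1) d hd (by omega) ⟨b, fun i hi => ?_⟩
  have := hb i hi
  have e : a + i * d - 1 = a - 1 + i * d := by omega
  simp only [e] at this
  exact this

end Pool.Agent.HVW
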