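import Pool.Agent.HVW.Main

/-!
# HVW / Berl: windows of Berlekamp's colouring
-/

set_option autoImplicit false

namespace Pool.Agent.HVW

open Finset

/-- A window of length `N < 2 q` of a `q`-periodic sequence with `2 t = q + 1` true terms in a period
can be chosen balanced. -/
theorem window (q t : ℕ) (hq : 0 < q) (ht : 2 * t = q + 1) (s : ℕ → Bool) (hs : ∀ j, s (j + q) = s j)
    (hcount : ((range q).filter (fun j => s j = true)).card = t) (N : ℕ) (hN : N < 2 * q) :
    ∃ u : ℕ, ∑ i ∈ range N, (if s (u + 1 + i) = true then 1 else 0) = (N + 1) / 2 := by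
  set T : ℕ → ℕ := fun u => ∑ i ∈ range N, (if s (u + 1 + i) = true then 1 else 0) with hT
  have hshift : ∀ c : ℕ, ∑ u ∈ range q, (if s (u + c) = true then 1 else 0) = t := by
    intro c
    have hper : Function.Periodic (fun j => s j = true) q := by
      intro j; simp only [hs]
    have h1 := Nat.filter_Ico_card_eq_of_periodic c q (fun j => s j = true) hper
    rw [Nat.count_eq_card_filter_range, hcount] at h1
    rw [← h1, Finset.card_filter, Finset.sum_Ico_eq_sum_range]
    have h2 : c + q - c = q := by omega
    rw [h2]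
    exact Finset.sum_congr rfl fun u _ => by rw [Nat.add_comm]
  have hsum : ∑ u ∈ range q, T u = N * t := by
    simp only [hT]
    rw [Finset.sum_comm]
    have : ∀ i ∈ range N, ∑ u ∈ range q, (if s (u + 1 + i) = true then 1 else 0) = t := by
      intro i _
      rw [← hshift (1 + i)]
      exact Finset.sum_congr rfl fun u _ => by rw [Nat.add_assoc]
    rw [Finset.sum_congr rfl this, Finset.sum_const, Finset.card_range, smul_eq_mul]
  have hper : ∀ u k, T (u + k * q) = T u := by
    intro u k
    induction k with
    | zero => simp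
    | succ k ih =>
      rw [← ih]
      simp only [hT]
      apply Finset.sum_congr rfl
      intro i _
      have : u + (k + 1) * q + 1 + i = (u + k * q + 1 + i) + q := by ring
      rw [this, hs]
  have hstep : ∀ u, T (u + 1) ≤ T u + 1 := by
    intro u
    simp only [hT]
    rcases Nat.eq_zero_or_pos N with h0 | h0
    · subst h0; simp
    obtain ⟨M, rfl⟩ : ∃ M, N = M + 1 := ⟨N - 1, by omega⟩
    rw [Finset.sum_range_succ, Finset.sum_range_succ' (fun i => if s (u + 1 + i) = true then 1 else 0)]
    have : ∑ i ∈ range M, (if s (u + 1 + 1 + i) = true then 1 else 0) =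
        ∑ i ∈ range M, (if s (u + 1 + (i + 1)) = true then 1 else 0) :=
      Finset.sum_congr rfl fun i _ => by rw [show u + 1 + 1 + i = u + 1 + (i + 1) by omega]
    rw [this]
    split_ifs <;> omega
  have hlow : ∃ u, T u ≤ (N + 1) / 2 := by
    by_contra hcon
    push Not at hcon
    have h1 : ∑ u ∈ range q, ((N + 1) / 2 + 1) ≤ ∑ u ∈ range q, T u :=
      Finset.sum_le_sum fun u _ => hcon u
    rw [hsum, Finset.sum_const, Finset.card_range, smul_eq_mul] at h1
    have h2 : N ≤ 2 * ((N + 1) / 2) := by omega
    nlinarith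
  have hhigh : ∃ u, (N + 1) / 2 ≤ T u := by
    by_contra hcon
    push Not at hcon
    have h1 : ∑ u ∈ range q, (T u + 1) ≤ ∑ u ∈ range q, ((N + 1) / 2) :=
      Finset.sum_le_sum fun u _ => hcon u
    rw [Finset.sum_add_distrib, hsum, Finset.sum_const, Finset.sum_const, Finset.card_range,
      smul_eq_mul, smul_eq_mul] at h1
    have h2 : 2 * ((N + 1) / 2) ≤ N + 1 := by omega
    nlinarith
  obtain ⟨u, hu⟩ := hlow
  obtain ⟨w, hw⟩ := hhigh
  have hex : ∃ n, (N + 1) / 2 ≤ T (u + n) := by
    refine ⟨w + u * q - u, ?_⟩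
    have h1 : u ≤ w + u * q := by nlinarith
    rw [show u + (w + u * q - u) = w + u * q by omega, hper]
    exact hw
  classical
  have hmin : ∀ m < Nat.find hex, ¬ (N + 1) / 2 ≤ T (u + m) := fun m hm => Nat.find_min hex hm
  have hspec := Nat.find_spec hex
  set n := Nat.find hex
  refine ⟨u + n, ?_⟩
  change T (u + n) = _
  rcases Nat.eq_zero_or_pos n with h0 | h0
  · rw [h0] at hspec ⊢
    exact le_antisymm hu hspec
  · have h1 := hmin (n - 1) (by omega)
    have h2 := hstep (u + (n - 1))
    rw [show u + (n - 1) + 1 = u + n by omega] at h2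
    omega

/-- `p` consecutive powers of an element outside the prime field meet every hyperplane's complement. -/
theorem functional_zero (p : ℕ) (hp : p.Prime) (f : GaloisField 2 p →ₗ[ZMod 2] ZMod 2)
    (z β : GaloisField 2 p) (hz : z ≠ 0) (hβ0 : β ≠ 0) (hβ1 : β ≠ 1)
    (h : ∀ i < p, f (z * β ^ i) = 0) : f = 0 := by
  have hfin : Module.finrank (ZMod 2) (GaloisField 2 p) = p := GaloisField.finrank 2 hp.ne_zero
  have hint : IsIntegral (ZMod 2) β := Algebra.IsIntegral.isIntegral β
  have hdvd : (minpoly (ZMod 2) β).natDegree ∣ p := by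
    have := minpoly.degree_dvd hint
    rwa [hfin] at this
  have hne1 : (minpoly (ZMod 2) β).natDegree ≠ 1 := by
    intro h1
    rw [minpoly.natDegree_eq_one_iff] at h1
    obtain ⟨t, ht⟩ := h1
    have hall : ∀ t : ZMod 2, t = 0 ∨ t = 1 := by decide
    have := hall t
    rcases this with rfl | rfl
    · exact hβ0 (by simpa using ht.symm)
    · exact hβ1 (by simpa using ht.symm)
  have hdeg : (minpoly (ZMod 2) β).natDegree = p := (hp.eq_one_or_self_of_dvd _ hdvd).resolve_left hne1
  have hli := linearIndependent_pow (K := ZMod 2) β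
  have hcard : Fintype.card (Fin (minpoly (ZMod 2) β).natDegree) =
      Module.finrank (ZMod 2) (GaloisField 2 p) := by rw [Fintype.card_fin, hdeg, hfin]
  have : Nonempty (Fin (minpoly (ZMod 2) β).natDegree) := ⟨⟨0, by rw [hdeg]; exact hp.pos⟩⟩
  let b := basisOfLinearIndependentOfCardEqFinrank hli hcard
  have hg : f ∘ₗ LinearMap.mulLeft (ZMod 2) z = 0 := by
    apply b.ext
    intro i
    have hb : b i = β ^ (i : ℕ) := by
      simp only [b, coe_basisOfLinearIndependentOfCardEqFinrank]
    rw [hb]
    simp only [LinearMap.comp_apply, LinearMap.mulLeft_apply, LinearMap.zero_apply]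
    exact h i (by have := i.2; omega)
  ext x
  have h1 := LinearMap.congr_fun hg (z⁻¹ * x)
  simpa [hz] using h1

/-- For a prime `p` and `N ≤ 2 (2 ^ p - 1) - 1` there is a halving colouring of `{1, ..., N}` without a
monochromatic progression of `p + 1` terms. -/
theorem exists_halving (p : ℕ) (hp : p.Prime) (N : ℕ) (hN : N < 2 * (2 ^ p - 1)) :
    ∃ c : ℕ → Bool, Halving N c ∧ NoAP (p + 1) N c true ∧ NoAP (p + 1) N c false := by
  classical
  have hcardK : Nat.card (GaloisField 2 p) = 2 ^ p := GaloisField.card 2 p hp.ne_zero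
  have : Fintype (GaloisField 2 p) := Fintype.ofFinite _
  obtain ⟨α, hα⟩ := IsCyclic.exists_generator (α := (GaloisField 2 p)ˣ)
  have hord : orderOf α = 2 ^ p - 1 := by
    rw [orderOf_eq_card_of_forall_mem_zpowers hα, Nat.card_units, hcardK]
  obtain ⟨f, hf⟩ : ∃ f : GaloisField 2 p →ₗ[ZMod 2] ZMod 2, f 1 ≠ 0 := by
    by_contra hcon
    push Not at hcon
    exact one_ne_zero ((Module.forall_dual_apply_eq_zero_iff (ZMod 2) (1 : GaloisField 2 p)).1 hcon)
  have hf0 : f ≠ 0 := by rintro rfl; exact hf rfl
  have hz2 : ∀ t : ZMod 2, t ≠ 1 ↔ t = 0 := by decide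
  have hf1 : f 1 = 1 := by
    by_contra h; exact hf ((hz2 _).1 h)
  set q := 2 ^ p - 1 with hq
  have hp2 : 2 ≤ p := hp.two_le
  have h4 : 2 ^ 2 ≤ 2 ^ p := Nat.pow_le_pow_right (by norm_num) hp2
  have hqpos : 0 < q := by omega
  let s : ℕ → Bool := fun j => decide (f ((α : GaloisField 2 p) ^ j) = 1)
  have hαq : (α : GaloisField 2 p) ^ q = 1 := by
    have := pow_orderOf_eq_one α
    rw [hord] at this
    rw [← Units.val_pow_eq_pow_val, this, Units.val_one]
  have hper : ∀ j, s (j + q) = s j := by
    intro j
    simp only [s, pow_add, hαq, mul_one]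
  -- number of elements with `f = 1`
  have hhalf : 2 * ((univ : Finset (GaloisField 2 p)).filter (fun x => f x = 1)).card = 2 ^ p := by
    have h1 := Finset.card_filter_add_card_filter_not (s := (univ : Finset (GaloisField 2 p)))
      (fun x => f x = 1)
    rw [Finset.card_univ, ← Nat.card_eq_fintype_card, hcardK] at h1
    have h2 : ((univ : Finset (GaloisField 2 p)).filter (fun x => ¬ f x = 1)).card =
        ((univ : Finset (GaloisField 2 p)).filter (fun x => f x = 1)).card := by
      apply Finset.card_nbij' (fun x => x + 1) (fun x => x - 1)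
      · intro x hx
        simp only [coe_filter, mem_univ, true_and, Set.mem_ofPred_eq, map_add, hf1] at hx ⊢
        rw [(hz2 _).1 hx, zero_add]
      · intro x hx
        simp only [coe_filter, mem_univ, true_and, Set.mem_ofPred_eq, map_sub, hf1] at hx ⊢
        rw [hx, sub_self]; exact zero_ne_one
      · intro x _; simp
      · intro x _; simp
    omega
  have hcount : ((range q).filter (fun j => s j = true)).card =
      ((univ : Finset (GaloisField 2 p)).filter (fun x => f x = 1)).card := by
    apply Finset.card_bij (fun j _ => (α : GaloisField 2 p) ^ j)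
    · intro j hj
      simp only [mem_filter, mem_range, s, decide_eq_true_eq] at hj
      simp only [mem_filter, mem_univ, true_and, hj.2]
    · intro j hj j' hj' h
      simp only [mem_filter, mem_range] at hj hj'
      have h5 : α ^ j = α ^ j' := Units.ext (by simpa using h)
      exact pow_injOn_Iio_orderOf (by rw [hord]; exact hj.1) (by rw [hord]; exact hj'.1) h5
    · intro x hx
      simp only [mem_filter, mem_univ, true_and] at hx
      have hx0 : x ≠ 0 := by rintro rfl; rw [map_zero] at hx; exact zero_ne_one hx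
      have h6 : Units.mk0 x hx0 ∈ Submonoid.powers α := mem_powers_iff_mem_zpowers.2 (hα _)
      rw [mem_powers_iff_mem_range_orderOf] at h6
      obtain ⟨j, hj, hjx⟩ := Finset.mem_image.1 h6
      rw [mem_range, hord] at hj
      have h7 : (α : GaloisField 2 p) ^ j = x := by
        have := congrArg Units.val hjx
        simpa using this
      refine ⟨j, ?_, h7⟩
      simp only [mem_filter, mem_range, s, decide_eq_true_eq, h7]
      exact ⟨hj, hx⟩
  obtain ⟨u, hu⟩ := window q _ hqpos (by rw [hhalf]; omega) s hper hcount N (by omega)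
  have hAP : ∀ v : Bool, NoAP (p + 1) N (fun j => s (u + j)) v := by
    intro v x d hx hd hM
    by_contra hcon
    push Not at hcon
    simp only [Nat.add_sub_cancel] at hM
    have hdq : d < q := by
      by_contra hge
      push Not at hge
      have : 2 * q ≤ p * d := Nat.mul_le_mul hp2 hge
      omega
    have hα0 : (α : GaloisField 2 p) ≠ 0 := α.ne_zero
    have hβ0 : (α : GaloisField 2 p) ^ d ≠ 0 := pow_ne_zero _ hα0
    have hβ1 : (α : GaloisField 2 p) ^ d ≠ 1 := by
      intro h1
      have h5 : α ^ d = 1 := Units.ext (by simpa using h1)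
      have := orderOf_dvd_of_pow_eq_one h5
      rw [hord] at this
      exact absurd (Nat.le_of_dvd (by omega) this) (by omega)
    have hval : ∀ i, (α : GaloisField 2 p) ^ (u + (x + i * d)) =
        (α : GaloisField 2 p) ^ (u + x) * ((α : GaloisField 2 p) ^ d) ^ i := by
      intro i
      rw [← pow_mul, ← pow_add]; congr 1; ring
    cases v
    · have := functional_zero p hp f ((α : GaloisField 2 p) ^ (u + x)) _ (pow_ne_zero _ hα0) hβ0 hβ1
        (fun i hi => by
          have h8 := hcon i (by omega)
          simp only [s, hval, decide_eq_false_iff_not] at h8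
          exact (hz2 _).1 h8)
      exact hf0 this
    · have h9 : ∀ i < p + 1, f ((α : GaloisField 2 p) ^ (u + x) * ((α : GaloisField 2 p) ^ d) ^ i) = 1 := by
        intro i hi
        have h8 := hcon i hi
        simpa only [s, hval, decide_eq_true_eq] using h8
      have := functional_zero p hp f ((α : GaloisField 2 p) ^ (u + x) * ((α : GaloisField 2 p) ^ d - 1)) _
        (mul_ne_zero (pow_ne_zero _ hα0) (sub_ne_zero.2 hβ1)) hβ0 hβ1
        (fun i hi => by
          have e : (α : GaloisField 2 p) ^ (u + x) * ((α : GaloisField 2 p) ^ d - 1) *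
              ((α : GaloisField 2 p) ^ d) ^ i =
              (α : GaloisField 2 p) ^ (u + x) * ((α : GaloisField 2 p) ^ d) ^ (i + 1) -
              (α : GaloisField 2 p) ^ (u + x) * ((α : GaloisField 2 p) ^ d) ^ i := by ring
          rw [e, map_sub, h9 (i + 1) (by omega), h9 i (by omega), sub_self])
      exact hf0 this
  refine ⟨fun j => s (u + j), ?_, hAP true, hAP false⟩
  right
  have h1 := card_add N (fun j => s (u + j)) true
  have h2 : ((Finset.Icc 1 N).filter (fun j => s (u + j) = true)).card = (N + 1) / 2 := by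
    rw [← hu, Finset.card_filter]
    have : Finset.Icc 1 N = Finset.Ico 1 (N + 1) := by ext x; simp only [mem_Icc, mem_Ico]; omega
    rw [this, Finset.sum_Ico_eq_sum_range, Nat.add_sub_cancel]
    exact Finset.sum_congr rfl fun i _ => by rw [Nat.add_assoc]
  simp only [Bool.not_true] at h1
  change ((Finset.Icc 1 N).filter (fun j => s (u + j) = false)).card = N / 2
  omega

/-- `W_{1/2}(p + 1) ≥ 2 ^ (p + 1) - 2` for primes `p`. -/
theorem main2 (p : ℕ) (hp : p.Prime) (H : ℕ)
    (hH : IsLeast {N : ℕ | ∀ c : ℕ → Bool, Halving N c →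
      ¬ (NoAP (p + 1) N c true ∧ NoAP (p + 1) N c false)} H) :
    2 ^ (p + 1) - 2 ≤ H := by
  by_contra hlt
  push Not at hlt
  have : 2 ^ (p + 1) = 2 * 2 ^ p := by ring
  obtain ⟨c, h1, h2⟩ := exists_halving p hp H (by omega)
  exact hH.1 c h1 h2

end Pool.Agent.HVW
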