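import Pool.Agent.HVW.A2
import Pool.Agent.HVW.B2

set_option autoImplicit false

namespace Pool.Agent.HVW

open Finset

private theorem one_change (N : ℕ) (c c' : ℕ → Bool) (x0 : ℕ)
    (h : ∀ x, x < N → x ≠ x0 → c' x = c x) (h0 : x0 < N → c' x0 = false) :
    ∑ x ∈ range N, (if c' x = true then (1 : ℤ) else -1) =
      ∑ x ∈ range N, (if c x = true then (1 : ℤ) else -1) ∨
    ∑ x ∈ range N, (if c' x = true then (1 : ℤ) else -1) =
      ∑ x ∈ range N, (if c x = true then (1 : ℤ) else -1) - 2 := by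
  have h1 : ∑ x ∈ range N, (if c' x = true then (1 : ℤ) else -1) -
      ∑ x ∈ range N, (if c x = true then (1 : ℤ) else -1) =
      ∑ x ∈ range N, (if x = x0 then (if c x0 = true then (-2 : ℤ) else 0) else 0) := by
    rw [← Finset.sum_sub_distrib]
    refine Finset.sum_congr rfl fun x hx => ?_
    rw [Finset.mem_range] at hx
    by_cases hxx : x = x0
    · subst hxx
      rw [if_pos rfl, h0 hx]
      cases c x <;> simp
    · rw [if_neg hxx, h x hx hxx]
      ring
  rw [Finset.sum_ite_eq'] at h1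
  split_ifs at h1
  · right; linarith
  · left; linarith
  · left; linarith

private noncomputable def F (s : ℕ → Bool) (N δ a n : ℕ) : ℤ :=
  ∑ x ∈ range N, (if col2 s N a (min n δ) (n - δ) x = true then (1 : ℤ) else -1)

private theorem F_step (s : ℕ → Bool) (N δ a n : ℕ) :
    F s N δ a (n + 1) = F s N δ a n ∨ F s N δ a (n + 1) = F s N δ a n - 2 := by
  unfold F
  by_cases hn : n < δ
  · have e1 : min n δ = n := min_eq_left hn.le
    have e2 : min (n + 1) δ = n + 1 := min_eq_left hn
    have e3 : n - δ = 0 := by omega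
    have e4 : n + 1 - δ = 0 := by omega
    rw [e1, e2, e3, e4]
    apply one_change N _ _ n
    · intro x hx hne
      unfold col2
      have : (x < n + 1 ∨ N ≤ x + 0) ↔ (x < n ∨ N ≤ x + 0) := by omega
      simp only [this]
    · intro _
      unfold col2
      rw [if_pos (Or.inl (by omega))]
  · have e1 : min n δ = δ := min_eq_right (by omega)
    have e2 : min (n + 1) δ = δ := min_eq_right (by omega)
    rw [e1, e2]
    have e4 : n + 1 - δ = (n - δ) + 1 := by omega
    rw [e4]
    by_cases hk : n - δ < N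
    · apply one_change N _ _ (N - 1 - (n - δ))
      · intro x hx hne
        unfold col2
        have : (x < δ ∨ N ≤ x + (n - δ + 1)) ↔ (x < δ ∨ N ≤ x + (n - δ)) := by omega
        simp only [this]
      · intro _
        unfold col2
        rw [if_pos (Or.inr (by omega))]
    · left
      refine Finset.sum_congr rfl fun x hx => ?_
      unfold col2
      have h1 : (x < δ ∨ N ≤ x + (n - δ + 1)) := by omega
      have h2 : (x < δ ∨ N ≤ x + (n - δ)) := by omega
      rw [if_pos h1, if_pos h2]

private theorem F_low (s : ℕ → Bool) (N δ a n : ℕ) : F s N δ a 0 - 2 * n ≤ F s N δ a n := by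
  induction n with
  | zero => simp
  | succ n ih =>
    push_cast
    rcases F_step s N δ a n with h | h <;> rw [h] <;> linarith

private theorem F_zero (s : ℕ → Bool) (N δ a : ℕ) :
    F s N δ a 0 = ∑ x ∈ range N, (if s (a + x) = true then (1 : ℤ) else -1) := by
  unfold F
  refine Finset.sum_congr rfl fun x hx => ?_
  rw [Finset.mem_range] at hx
  unfold col2
  have h : ¬ (x < min 0 δ ∨ N ≤ x + (0 - δ)) := by
    rw [Nat.zero_min, Nat.zero_sub]
    omega
  rw [if_neg h]

private theorem F_shift (s : ℕ → Bool) (N δ a : ℕ) :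
    |F s N δ (a + 1) 0 - F s N δ a 0| ≤ 2 := by
  have h1 := Finset.sum_range_succ (fun x => (if s (a + x) = true then (1 : ℤ) else -1)) N
  have h2 := Finset.sum_range_succ' (fun x => (if s (a + x) = true then (1 : ℤ) else -1)) N
  have h3 : ∑ x ∈ range N, (if s (a + (x + 1)) = true then (1 : ℤ) else -1) =
      ∑ x ∈ range N, (if s (a + 1 + x) = true then (1 : ℤ) else -1) := by
    refine Finset.sum_congr rfl fun x _ => ?_
    rw [show a + (x + 1) = a + 1 + x by ring]
  rw [F_zero, F_zero]
  simp only [Nat.add_zero] at h2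
  rw [h3] at h2
  have h4 : ∑ x ∈ range N, (if s (a + 1 + x) = true then (1 : ℤ) else -1) -
      ∑ x ∈ range N, (if s (a + x) = true then (1 : ℤ) else -1) =
      (if s (a + N) = true then (1 : ℤ) else -1) - (if s a = true then (1 : ℤ) else -1) := by
    linarith
  rw [h4]
  split_ifs <;> norm_num

private theorem sumP (p N : ℕ) (s : ℕ → Bool) (hs : Seq p s) (hp : 1 ≤ p) (P : ℕ → Prop)
    [DecidablePred P] :
    ∑ a ∈ range (2 ^ p - 1), ∑ x ∈ range N,
      (if (if P x then false else s (a + x)) = true then (1 : ℤ) else -1) =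
      N - 2 ^ p * (((range N).filter P).card : ℤ) := by
  have hpow : 2 ^ p = 2 * 2 ^ (p - 1) := by
    rw [← pow_succ']; congr 1; omega
  have h1 : 1 ≤ 2 ^ p := Nat.one_le_two_pow
  rw [Finset.sum_comm]
  have h2 : ∀ x ∈ range N, ∑ a ∈ range (2 ^ p - 1),
      (if (if P x then false else s (a + x)) = true then (1 : ℤ) else -1) =
      1 - 2 ^ p * (if P x then (1 : ℤ) else 0) := by
    intro x _
    by_cases h : P x
    · simp only [if_pos h]
      simp only [Bool.false_eq_true, if_false, Finset.sum_const, Finset.card_range, nsmul_eq_mul]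
      push_cast [h1]
      ring
    · simp only [if_neg h]
      have h2 := hs.count x
      have h3 : ∑ a ∈ range (2 ^ p - 1), (if s (a + x) = true then (1 : ℤ) else -1) =
          2 * ((range (2 ^ p - 1)).filter (fun a => s (a + x) = true)).card -
            ((2 ^ p - 1 : ℕ) : ℤ) := by
        have h4 : ∀ a ∈ range (2 ^ p - 1), (if s (a + x) = true then (1 : ℤ) else -1) =
            2 * (if s (a + x) = true then (1 : ℤ) else 0) - 1 := by
          intro a _
          split_ifs <;> norm_num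
        rw [Finset.sum_congr rfl h4, Finset.sum_sub_distrib, ← Finset.mul_sum, Finset.sum_boole]
        simp
      rw [h3, h2]
      push_cast [h1]
      have h5 : (2 : ℤ) ^ p = 2 * 2 ^ (p - 1) := by exact_mod_cast hpow
      rw [h5]
      ring
  rw [Finset.sum_congr rfl h2, Finset.sum_sub_distrib, ← Finset.mul_sum, Finset.sum_boole]
  simp

/-- MODULE C2 -/
theorem comb2 (p δ N : ℕ) (s : ℕ → Bool) (hs : Seq p s) (h1 : 1 ≤ δ) (hδp : δ < p)
    (h2p : p ≤ 2 * δ + 1) (hbig : 4 * δ * (δ ^ 2 * 2 ^ δ + 2 * δ ^ 2) ≤ 2 ^ p)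
    (hN1 : δ * 2 ^ p < N) (hN2 : N ≤ p * (2 ^ p - 1)) :
    ∃ c : ℕ → Bool, |∑ x ∈ Finset.range N, (if c x = true then (1 : ℤ) else -1)| ≤ 1 ∧
      ∀ x d, 1 ≤ d → x + p * d < N → ¬ ∃ b, ∀ i, i < p + 1 → c (x + i * d) = b := by
  classical
  have hp1 : 1 ≤ p := by omega
  have h16 : 16 ≤ 2 ^ p := by
    refine le_trans ?_ hbig
    have h2 : 2 ≤ 2 ^ δ := by
      calc 2 = 2 ^ 1 := by norm_num
        _ ≤ 2 ^ δ := Nat.pow_le_pow_right (by norm_num) h1
    have h3 : 1 ≤ δ ^ 2 := Nat.one_le_pow _ _ h1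
    have h4 : 4 ≤ δ ^ 2 * 2 ^ δ + 2 * δ ^ 2 := by nlinarith
    calc 16 = 4 * 1 * 4 := by norm_num
      _ ≤ 4 * δ * (δ ^ 2 * 2 ^ δ + 2 * δ ^ 2) := Nat.mul_le_mul (by omega) h4
  have hp4 : 4 ≤ p := by
    by_contra hlt
    have : 2 ^ p ≤ 2 ^ 3 := Nat.pow_le_pow_right (by norm_num) (by omega)
    omega
  have hp2 : p + 2 ≤ 2 ^ p := by
    have h2 : ∀ q, 4 ≤ q → q + 2 ≤ 2 ^ q := by
      intro q hq
      induction q, hq using Nat.le_induction with
      | base => norm_num
      | succ q hq ih => rw [pow_succ]; omega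
    exact h2 p hp4
  have hN3 : 2 * δ + p * δ < N := by
    refine lt_of_le_of_lt ?_ hN1
    calc 2 * δ + p * δ = δ * (p + 2) := by ring
      _ ≤ δ * 2 ^ p := Nat.mul_le_mul_left _ hp2
  have hδL : δ < 2 ^ p - 1 := by omega
  by_contra hcon
  have hcon2 : ∀ a n, n ≤ 2 * δ → (n = 0 ∨ Good2 s p δ N a) → 1 < |F s N δ a n| := by
    intro a n hn hg
    by_contra hle
    rw [not_lt] at hle
    refine hcon ⟨col2 s N a (min n δ) (n - δ), hle, ?_⟩
    rintro x d hd hx ⟨b, hb⟩
    cases b with
    | true => exact no_true2 p N s hs hN2 a _ _ x d hd hx hb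
    | false =>
      rcases hg with rfl | hg
      · have hdL : d < 2 ^ p - 1 := by
          have h1 : p * d < p * (2 ^ p - 1) := by omega
          exact lt_of_mul_lt_mul_left h1 (Nat.zero_le _)
        refine hs.zeros (a + x) d hd hdL fun i hi => ?_
        have h2 := hb i (by omega)
        unfold col2 at h2
        have h3 : i * d ≤ p * d := Nat.mul_le_mul_right d hi.le
        have h4 : ¬ (x + i * d < min 0 δ ∨ N ≤ x + i * d + (0 - δ)) := by
          rw [Nat.zero_min, Nat.zero_sub]
          omega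
        rw [if_neg h4] at h2
        rw [← h2]
        congr 1
        ring
      · exact no_false2 p δ N s hs h1 hδp hN2 hN3 a _ _ x d hg (min_le_right _ _) (by omega) hd hx hb
  have hE0 : ∀ a, 1 < |F s N δ a 0| := fun a => hcon2 a 0 (Nat.zero_le _) (Or.inl rfl)
  have hpos : ∀ a, 2 ≤ F s N δ a 0 := by
    by_contra hneg
    have hneg0 : F s N δ 0 0 ≤ -2 := by
      by_contra h0
      apply hneg
      intro a
      induction a with
      | zero =>
        have := hE0 0
        rw [lt_abs] at this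
        omega
      | succ a ih =>
        have h5 := hE0 (a + 1)
        have h6 := F_shift s N δ a
        rw [lt_abs] at h5
        rw [abs_le] at h6
        omega
    have hall : ∀ a, F s N δ a 0 ≤ -2 := by
      intro a
      induction a with
      | zero => exact hneg0
      | succ a ih =>
        have h5 := hE0 (a + 1)
        have h6 := F_shift s N δ a
        rw [lt_abs] at h5
        rw [abs_le] at h6
        omega
    have h7 := sumP p N s hs hp1 (fun _ => False)
    have h8 : ∑ a ∈ range (2 ^ p - 1), F s N δ a 0 ≤ ∑ a ∈ range (2 ^ p - 1), (-2 : ℤ) :=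
      Finset.sum_le_sum fun a _ => hall a
    have h9 : ∑ a ∈ range (2 ^ p - 1), F s N δ a 0 = N := by
      have h10 : ∀ a ∈ range (2 ^ p - 1), F s N δ a 0 =
          ∑ x ∈ range N, (if (if False then false else s (a + x)) = true then (1 : ℤ) else -1) := by
        intro a _
        rw [F_zero]
        simp
      rw [Finset.sum_congr rfl h10, h7]
      simp
    rw [h9, Finset.sum_const, Finset.card_range, nsmul_eq_mul] at h8
    have h11 : (0 : ℤ) ≤ N := Nat.cast_nonneg N
    have h12 : (1 : ℤ) ≤ ((2 ^ p - 1 : ℕ) : ℤ) := by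
      have : 1 ≤ 2 ^ p - 1 := by omega
      exact_mod_cast this
    linarith
  have hg2 : ∀ a, Good2 s p δ N a → 2 ≤ F s N δ a (2 * δ) := by
    intro a ha
    have : ∀ n, n ≤ 2 * δ → 2 ≤ F s N δ a n := by
      intro n
      induction n with
      | zero => intro _; exact hpos a
      | succ n ih =>
        intro hn
        have h5 := ih (by omega)
        have h6 := hcon2 a (n + 1) hn (Or.inr ha)
        rw [lt_abs] at h6
        rcases F_step s N δ a n with h7 | h7 <;> rw [h7] at h6 ⊢ <;> omega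
    exact this (2 * δ) le_rfl
  have hbad : ∀ a, 2 - 4 * (δ : ℤ) ≤ F s N δ a (2 * δ) := by
    intro a
    have h5 := F_low s N δ a (2 * δ)
    have h6 := hpos a
    push_cast at h5
    linarith
  have hcard := bad2_card p δ N s hs h1 hδp (by omega) hN2 hδL
  have hlow : ∑ a ∈ range (2 ^ p - 1), (if Good2 s p δ N a then (2 : ℤ) else 2 - 4 * δ) ≤
      ∑ a ∈ range (2 ^ p - 1), F s N δ a (2 * δ) := by
    refine Finset.sum_le_sum fun a _ => ?_
    split_ifs with h
    · exact hg2 a h
    · exact hbad a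
  have hval : ∑ a ∈ range (2 ^ p - 1), (if Good2 s p δ N a then (2 : ℤ) else 2 - 4 * δ) =
      2 * ((2 ^ p - 1 : ℕ) : ℤ) -
        4 * δ * (((range (2 ^ p - 1)).filter (fun a => ¬ Good2 s p δ N a)).card : ℤ) := by
    have h5 : ∀ a ∈ range (2 ^ p - 1), (if Good2 s p δ N a then (2 : ℤ) else 2 - 4 * δ) =
        2 - 4 * δ * (if ¬ Good2 s p δ N a then (1 : ℤ) else 0) := by
      intro a _
      by_cases h : Good2 s p δ N a
      · simp [h]
      · simp [h]
    rw [Finset.sum_congr rfl h5, Finset.sum_sub_distrib, ← Finset.mul_sum, Finset.sum_boole,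
      Finset.sum_const, Finset.card_range, nsmul_eq_mul]
    ring
  have hcard' : (((range (2 ^ p - 1)).filter (fun a => ¬ Good2 s p δ N a)).card : ℤ) ≤
      (δ : ℤ) ^ 2 * 2 ^ δ + 2 * δ ^ 2 := by
    exact_mod_cast hcard
  have hmul : 4 * (δ : ℤ) *
      (((range (2 ^ p - 1)).filter (fun a => ¬ Good2 s p δ N a)).card : ℤ) ≤ 2 ^ p := by
    calc 4 * (δ : ℤ) * (((range (2 ^ p - 1)).filter (fun a => ¬ Good2 s p δ N a)).card : ℤ) ≤
        4 * (δ : ℤ) * ((δ : ℤ) ^ 2 * 2 ^ δ + 2 * δ ^ 2) :=
          mul_le_mul_of_nonneg_left hcard' (by positivity)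
      _ ≤ 2 ^ p := by exact_mod_cast hbig
  -- the sum over all shifts
  have hsum : ∑ a ∈ range (2 ^ p - 1), F s N δ a (2 * δ) ≤ (N : ℤ) - 2 ^ p * (2 * δ) := by
    have h7 := sumP p N s hs hp1 (fun x => x < δ ∨ N ≤ x + δ)
    have h8 : ∑ a ∈ range (2 ^ p - 1), F s N δ a (2 * δ) = ∑ a ∈ range (2 ^ p - 1), ∑ x ∈ range N,
        (if (if x < δ ∨ N ≤ x + δ then false else s (a + x)) = true then (1 : ℤ) else -1) := by
      refine Finset.sum_congr rfl fun a _ => ?_
      unfold F col2
      rw [min_eq_right (by omega : δ ≤ 2 * δ), (by omega : 2 * δ - δ = δ)]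
    rw [h8, h7]
    have h9 : 2 * δ ≤ ((range N).filter (fun x => x < δ ∨ N ≤ x + δ)).card := by
      have h10 : range δ ∪ Finset.Ico (N - δ) N ⊆ (range N).filter (fun x => x < δ ∨ N ≤ x + δ) := by
        intro x hx
        rw [Finset.mem_union, Finset.mem_range, Finset.mem_Ico] at hx
        rw [Finset.mem_filter, Finset.mem_range]
        omega
      refine le_trans ?_ (Finset.card_le_card h10)
      rw [Finset.card_union_of_disjoint, Finset.card_range, Nat.card_Ico]
      · omega
      · rw [Finset.disjoint_left]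
        intro x hx hx2
        rw [Finset.mem_range] at hx
        rw [Finset.mem_Ico] at hx2
        omega
    have h11 : (2 * δ : ℤ) ≤ (((range N).filter (fun x => x < δ ∨ N ≤ x + δ)).card : ℤ) := by
      exact_mod_cast h9
    have h12 := mul_le_mul_of_nonneg_left h11 (by positivity : (0 : ℤ) ≤ 2 ^ p)
    linarith
  have hcast : ((2 ^ p - 1 : ℕ) : ℤ) = 2 ^ p - 1 := by
    push_cast [Nat.one_le_two_pow (n := p)]
    ring
  rw [hval, hcast] at hlow
  have hNle : (N : ℤ) ≤ p * (2 ^ p - 1) := by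
    rw [← hcast]
    exact_mod_cast hN2
  have hp3 : (4 : ℤ) ≤ p := by exact_mod_cast hp4
  have hpd : (p : ℤ) ≤ 2 * δ + 1 := by exact_mod_cast h2p
  have h2pos : (0 : ℤ) < 2 ^ p := by positivity
  have hfin : (p : ℤ) * 2 ^ p ≤ (2 * δ + 1) * 2 ^ p := mul_le_mul_of_nonneg_right hpd h2pos.le
  nlinarith

end Pool.Agent.HVW
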