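import Pool.Agent.HVW.Defs

set_option autoImplicit false

namespace Pool.Agent.HVW

open Finset

variable {p N δ : ℕ} {s : ℕ → Bool}

/-- no long progression of zeros starts in the prefix -/
def Good (s : ℕ → Bool) (p δ a : ℕ) : Prop :=
  ∀ x0, x0 < δ → ∀ d, 1 ≤ d → d ≤ δ →
    ¬ ∀ i, i < p + 1 - δ → s (a + (x0 + δ * d) + i * d) = false

theorem d_lt (hN2 : N ≤ p * (2 ^ p - 1)) {x d : ℕ} (h : x + p * d < N) : d < 2 ^ p - 1 := by
  by_contra hcon
  push Not at hcon
  have := Nat.mul_le_mul_left p hcon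
  omega

theorem no_true (hs : Seq p s) (hN2 : N ≤ p * (2 ^ p - 1)) (a j x d : ℕ) (hd : 1 ≤ d)
    (h : x + p * d < N) : ¬ ∀ i, i < p + 1 → col s a j (x + i * d) = true := by
  intro hall
  refine hs.ones (a + x) d hd (d_lt hN2 h) fun i hi => ?_
  have h1 := hall i hi
  unfold col at h1
  split_ifs at h1
  rw [← add_assoc] at h1
  exact h1

theorem no_false0 (hs : Seq p s) (hN2 : N ≤ p * (2 ^ p - 1)) (a x d : ℕ) (hd : 1 ≤ d)
    (h : x + p * d < N) : ¬ ∀ i, i < p + 1 → col s a 0 (x + i * d) = false := by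
  intro hall
  refine hs.zeros (a + x) d hd (d_lt hN2 h) fun i hi => ?_
  have h1 := hall i (by omega)
  unfold col at h1
  rw [if_neg (Nat.not_lt_zero _), ← add_assoc] at h1
  exact h1

theorem no_falsej (hs : Seq p s) (hN2 : N ≤ p * (2 ^ p - 1)) (a j x d : ℕ) (hd : 1 ≤ d)
    (h : x + p * d < N) (hδ : 1 ≤ δ) (hδp : δ < p) (hg : Good s p δ a) (hj : j ≤ δ) :
    ¬ ∀ i, i < p + 1 → col s a j (x + i * d) = false := by
  intro hall
  rcases Nat.lt_or_ge (x + d) j with hlt | hge
  · refine hg x (by omega) d hd (by omega) fun i hi => ?_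
    have h1 := hall (δ + i) (by omega)
    unfold col at h1
    have h2 : ¬ (x + (δ + i) * d < j) := by
      have h3 : δ * 1 ≤ (δ + i) * d := Nat.mul_le_mul (by omega) hd
      omega
    rw [if_neg h2] at h1
    rw [← h1]
    congr 1
    ring
  · refine hs.zeros (a + (x + d)) d hd (d_lt hN2 h) fun i hi => ?_
    have h1 := hall (i + 1) (by omega)
    unfold col at h1
    have h2 : ¬ (x + (i + 1) * d < j) := by
      have h3 : 1 * d ≤ (i + 1) * d := Nat.mul_le_mul (by omega) le_rfl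
      omega
    rw [if_neg h2] at h1
    rw [← h1]
    congr 1
    ring

open Classical in
theorem bad_card (hs : Seq p s) (hδ : 1 ≤ δ) (hδp : δ < p) :
    ((range (2 ^ p - 1)).filter (fun a => ¬ Good s p δ a)).card ≤ δ ^ 2 * 2 ^ (δ - 1) := by
  have hL : δ < 2 ^ p - 1 := by
    have h1 : p < 2 ^ p := Nat.lt_two_pow_self
    omega
  have hsub : (range (2 ^ p - 1)).filter (fun a => ¬ Good s p δ a) ⊆
      (range δ ×ˢ range δ).biUnion fun q =>
        (range (2 ^ p - 1)).filter
          (fun a => ∀ i, i < p + 1 - δ → s (a + (q.1 + δ * (q.2 + 1)) + i * (q.2 + 1)) = false) := by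
    intro a ha
    rw [mem_filter] at ha
    obtain ⟨ha1, ha2⟩ := ha
    unfold Good at ha2
    push Not at ha2
    obtain ⟨x0, hx0, d, hd1, hd2, hall⟩ := ha2
    rw [mem_biUnion]
    refine ⟨(x0, d - 1), ?_, ?_⟩
    · rw [mem_product, mem_range, mem_range]
      exact ⟨hx0, by omega⟩
    · rw [mem_filter]
      refine ⟨ha1, fun i hi => ?_⟩
      have h1 : d - 1 + 1 = d := by omega
      simp only [h1]
      exact hall i hi
  calc ((range (2 ^ p - 1)).filter (fun a => ¬ Good s p δ a)).card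
      ≤ _ := card_le_card hsub
    _ ≤ ∑ q ∈ range δ ×ˢ range δ, ((range (2 ^ p - 1)).filter
          (fun a => ∀ i, i < p + 1 - δ →
            s (a + (q.1 + δ * (q.2 + 1)) + i * (q.2 + 1)) = false)).card := card_biUnion_le
    _ ≤ ∑ q ∈ range δ ×ˢ range δ, 2 ^ (δ - 1) := by
        refine sum_le_sum fun q hq => ?_
        rw [mem_product, mem_range, mem_range] at hq
        convert hs.few δ hδ hδp.le (q.1 + δ * (q.2 + 1)) (q.2 + 1) (by omega) (by omega)
    _ = δ ^ 2 * 2 ^ (δ - 1) := by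
        rw [sum_const, card_product, card_range, smul_eq_mul]; ring

end Pool.Agent.HVW
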