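import Mathlib
import Pool.Agent.HVW.Defs
import Pool.Agent.HVW.CombA

set_option autoImplicit false

namespace Pool.Agent.HVW

/-- The colouring with two recoloured blocks: zero on the first `j` and on the last `k` positions. -/
def col2 (s : ℕ → Bool) (N a j k x : ℕ) : Bool :=
  if x < j ∨ N ≤ x + k then false else s (a + x)

/-- Good shifts for two blocks of length at most `δ`. -/
def Good2 (s : ℕ → Bool) (p δ N a : ℕ) : Prop :=
  Good s p δ a ∧
  (∀ u, u < δ → ∀ d, 1 ≤ d → d ≤ δ → ¬ ∀ i, i < p + 1 - δ → s (a + (N - 1 - u - p * d) + i * d) = false) ∧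
  (∀ x, x < δ → ∀ u, u < δ → ∀ d, 1 ≤ d → x + p * d + u + 1 = N →
    ¬ ∀ i, i < p + 1 - 2 → s (a + (x + d) + i * d) = false)

end Pool.Agent.HVW
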