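import Mathlib
import Pool.Agent.HVW.Defs
import Pool.Agent.HVW.Field
import Pool.Agent.HVW.Comb
import Pool.Agent.HVW.C2
import Pool.Agent.HVW.Base33

set_option autoImplicit false

namespace Pool.Agent.HVW

theorem pow_aux (δ : ℕ) (h : 14 ≤ δ) : 3 * δ ^ 3 ≤ 2 ^ δ := by
  induction δ, h using Nat.le_induction with
  | base => norm_num
  | succ n hn ih =>
    have h1 : (n + 1) ^ 3 ≤ 2 * n ^ 3 := by nlinarith [mul_le_mul hn hn (by norm_num) (by omega : 0 ≤ n)]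
    calc 3 * (n + 1) ^ 3 ≤ 2 * (3 * n ^ 3) := by omega
      _ ≤ 2 * 2 ^ n := Nat.mul_le_mul_left 2 ih
      _ = 2 ^ (n + 1) := by rw [pow_succ]; ring

/-- `2 ^ (2 δ + 1)` is large against the number of bad shifts. -/
theorem big_aux (δ : ℕ) (h : 14 ≤ δ) : 4 * δ * (δ ^ 2 * 2 ^ δ + 2 * δ ^ 2) ≤ 2 ^ (2 * δ + 1) := by
  have h1 := pow_aux δ h
  have h2 : (8 : ℕ) ≤ 2 ^ δ := by
    calc (8 : ℕ) = 2 ^ 3 := by norm_num
      _ ≤ 2 ^ δ := Nat.pow_le_pow_right (by norm_num) (by omega)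
  have e1 : 4 * δ * (δ ^ 2 * 2 ^ δ + 2 * δ ^ 2) = 4 * δ ^ 3 * 2 ^ δ + 8 * δ ^ 3 := by ring
  have e2 : 2 ^ (2 * δ + 1) = 2 * (2 ^ δ * 2 ^ δ) := by rw [pow_succ, two_mul, pow_add]; ring
  have h3 : 8 * δ ^ 3 ≤ 2 ^ δ * δ ^ 3 := Nat.mul_le_mul_right _ h2
  have h4 : 3 * δ ^ 3 * 2 ^ δ ≤ 2 ^ δ * 2 ^ δ := Nat.mul_le_mul_right _ h1
  rw [e1, e2]
  nlinarith

theorem full (p : ℕ) (hp : p.Prime) (h29 : 29 ≤ p) (N : ℕ)
    (hN : ∀ c : ℕ → Bool,
      ((Finset.Icc 1 N).filter (fun x => c x = true)).card ≤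
        ((Finset.Icc 1 N).filter (fun x => c x = false)).card + 1 →
      ((Finset.Icc 1 N).filter (fun x => c x = false)).card ≤
        ((Finset.Icc 1 N).filter (fun x => c x = true)).card + 1 →
      ∃ a d : ℕ, 1 ≤ a ∧ 1 ≤ d ∧ a + p * d ≤ N ∧ ∃ b, ∀ i, i < p + 1 → c (a + i * d) = b) :
    p * (2 ^ p - 1) < N := by
  by_contra hcon
  push Not at hcon
  obtain ⟨δ, hδ⟩ : ∃ δ, p = 2 * δ + 1 := by
    rcases hp.eq_two_or_odd' with h | ⟨k, hk⟩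
    · omega
    · exact ⟨k, hk⟩
  have hδ14 : 14 ≤ δ := by omega
  have hbig : 4 * δ * (δ ^ 2 * 2 ^ δ + 2 * δ ^ 2) ≤ 2 ^ p := by
    rw [hδ]; exact big_aux δ hδ14
  have h3 : δ ^ 3 * 2 ^ δ ≤ 2 ^ p := by
    refine le_trans ?_ hbig
    have : 4 * δ * (δ ^ 2 * 2 ^ δ + 2 * δ ^ 2) = 4 * (δ ^ 3 * 2 ^ δ) + 8 * δ ^ 3 := by ring
    omega
  have hlow := base33 p δ hp h3 N hN
  obtain ⟨s, hs⟩ := exists_seq p hp
  obtain ⟨c, hc1, hc2⟩ := comb2 p δ N s hs (by omega) (by omega) (by omega) hbig hlow hcon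
  have hsum : ∑ x ∈ Finset.range N, (if c x = true then (1 : ℤ) else -1) =
      (((Finset.range N).filter (fun x => c x = true)).card : ℤ) -
        (((Finset.range N).filter (fun x => c x = false)).card : ℤ) := by
    rw [Finset.sum_ite, Finset.sum_const, Finset.sum_const]
    simp only [Bool.not_eq_true, nsmul_eq_mul, mul_one, mul_neg]
    ring
  rw [hsum, abs_le] at hc1
  obtain ⟨a, d, ha, hd, hle, b, hb⟩ := hN (fun x => c (x - 1))
    (by rw [card_shift, card_shift]; omega) (by rw [card_shift, card_shift]; omega)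
  refine hc2 (a - 1) d hd (by omega) ⟨b, fun i hi => ?_⟩
  have := hb i hi
  have e : a + i * d - 1 = a - 1 + i * d := by omega
  simp only [e] at this
  exact this

end Pool.Agent.HVW
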