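import Mathlib

/-!
# HVW / Main: halving van der Waerden numbers against mixed van der Waerden numbers
-/

set_option autoImplicit false

namespace Pool.Agent.HVW

/-- The colouring `c` of `{1, ..., N}` has no progression with `k` terms of colour `v`. -/
def NoAP (k N : ℕ) (c : ℕ → Bool) (v : Bool) : Prop :=
  ∀ x d : ℕ, 1 ≤ x → 1 ≤ d → x + (k - 1) * d ≤ N → ∃ i < k, c (x + i * d) ≠ v

/-- The two colour classes of the colouring `c` of `{1, ..., N}` have the sizes `⌊N/2⌋` and `⌈N/2⌉`. -/
def Halving (N : ℕ) (c : ℕ → Bool) : Prop :=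
  ((Finset.Icc 1 N).filter (fun x => c x = true)).card = N / 2 ∨
    ((Finset.Icc 1 N).filter (fun x => c x = false)).card = N / 2

/-- The first block carries `c`, the second block the complement of `c`. -/
def glue (h : ℕ) (c : ℕ → Bool) : ℕ → Bool := fun x => if x ≤ h then c x else !(c (x - h))

theorem noAP_glue (a b N h M : ℕ) (c : ℕ → Bool) (v : Bool) (hb : 1 ≤ b)
    (h1 : h ≤ N) (h2 : M - h ≤ N) (ha1 : NoAP a N c v) (hb1 : NoAP b N c (!v)) :
    NoAP (a + b - 1) M (glue h c) v := by
  intro x d hx hd hM
  by_contra hcon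
  push Not at hcon
  have ha : 1 ≤ a := by
    by_contra h0
    have : a = 0 := by omega
    subst this
    obtain ⟨i, hi, -⟩ := ha1 1 1 (by omega) (by omega) (by
      have := hM
      by_contra hN
      have hN0 : N = 0 := by omega
      subst hN0
      have hMle : M ≤ 0 := by omega
      omega)
    omega
  by_cases hcase : x + (a - 1) * d ≤ h
  · obtain ⟨i, hi, hne⟩ := ha1 x d hx hd (hcase.trans h1)
    apply hne
    have h3 := hcon i (by omega)
    have h4 : x + i * d ≤ h := by
      have : i * d ≤ (a - 1) * d := Nat.mul_le_mul_right d (by omega)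
      omega
    simpa [glue, h4] using h3
  · push Not at hcase
    obtain ⟨i, hi, hne⟩ := hb1 (x + (a - 1) * d - h) d (by omega) hd (by
      have h5 : (a + b - 1 - 1) * d = (a - 1) * d + (b - 1) * d := by
        rw [← Nat.add_mul]; congr 1; omega
      rw [h5] at hM
      omega)
    apply hne
    have h3 := hcon (a - 1 + i) (by omega)
    have h6 : x + (a - 1 + i) * d = x + (a - 1) * d + i * d := by rw [Nat.add_mul]; omega
    rw [h6] at h3
    have h4 : ¬ x + (a - 1) * d + i * d ≤ h := by omega
    have h7 : x + (a - 1) * d + i * d - h = x + (a - 1) * d - h + i * d := by omega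
    simp only [glue, h4, if_false, h7] at h3
    rw [← h3, Bool.not_not]

theorem card_glue (h m : ℕ) (c : ℕ → Bool) (v : Bool) :
    ((Finset.Icc 1 (h + m)).filter (fun x => glue h c x = v)).card =
      ((Finset.Icc 1 h).filter (fun x => c x = v)).card +
        ((Finset.Icc 1 m).filter (fun x => c x = !v)).card := by
  have e1 : (Finset.Icc 1 (h + m)).filter (fun x => glue h c x = v) =
      (Finset.Icc 1 h).filter (fun x => c x = v) ∪
        ((Finset.Icc 1 m).filter (fun x => c x = !v)).map (addRightEmbedding h) := by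
    ext x
    simp only [Finset.mem_filter, Finset.mem_Icc, Finset.mem_union, Finset.mem_map,
      addRightEmbedding_apply]
    constructor
    · rintro ⟨⟨hx1, hx2⟩, hx3⟩
      by_cases hxh : x ≤ h
      · left
        exact ⟨⟨hx1, hxh⟩, by simpa [glue, hxh] using hx3⟩
      · right
        refine ⟨x - h, ⟨⟨by omega, by omega⟩, ?_⟩, by omega⟩
        simp only [glue, hxh, if_false] at hx3
        rw [← hx3, Bool.not_not]
    · rintro (⟨⟨hx1, hx2⟩, hx3⟩ | ⟨y, ⟨⟨hy1, hy2⟩, hy3⟩, rfl⟩)
      · exact ⟨⟨hx1, by omega⟩, by simpa [glue, hx2] using hx3⟩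
      · refine ⟨⟨by omega, by omega⟩, ?_⟩
        have h4 : ¬ y + h ≤ h := by omega
        simp only [glue, h4, if_false, Nat.add_sub_cancel, hy3, Bool.not_not]
  rw [e1, Finset.card_union_of_disjoint, Finset.card_map]
  rw [Finset.disjoint_left]
  intro x hx hx'
  simp only [Finset.mem_filter, Finset.mem_Icc, Finset.mem_map, addRightEmbedding_apply] at hx hx'
  obtain ⟨y, ⟨⟨hy1, -⟩, -⟩, rfl⟩ := hx'
  omega

theorem card_add (h : ℕ) (c : ℕ → Bool) (v : Bool) :
    ((Finset.Icc 1 h).filter (fun x => c x = v)).card +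
      ((Finset.Icc 1 h).filter (fun x => c x = !v)).card = h := by
  have := Finset.card_filter_add_card_filter_not (s := Finset.Icc 1 h) (fun x => c x = v)
  rw [Nat.card_Icc] at this
  have e : (Finset.Icc 1 h).filter (fun x => ¬ c x = v) = (Finset.Icc 1 h).filter (fun x => c x = !v) := by
    apply Finset.filter_congr
    intro x _
    cases c x <;> cases v <;> simp
  rw [e] at this
  omega

theorem halving_glue (M : ℕ) (c : ℕ → Bool) : Halving M (glue ((M + 1) / 2) c) := by
  set h := (M + 1) / 2 with hh
  rcases Nat.even_or_odd M with ⟨m, hm⟩ | ⟨m, hm⟩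
  · left
    have h1 : h = m := by omega
    have h2 : M = h + m := by omega
    conv_lhs => rw [h2]
    rw [card_glue, h1, card_add]
    omega
  · have h1 : h = m + 1 := by omega
    have h2 : M = h + m := by omega
    have h3 := card_add m c true
    have h4 := card_add m c false
    have key : ∀ v : Bool, ((Finset.Icc 1 (m + 1)).filter (fun x => c x = v)).card =
        ((Finset.Icc 1 m).filter (fun x => c x = v)).card + (if c (m + 1) = v then 1 else 0) := by
      intro v
      have e : Finset.Icc 1 (m + 1) = insert (m + 1) (Finset.Icc 1 m) := by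
        ext x; simp only [Finset.mem_Icc, Finset.mem_insert]; omega
      have hnot : m + 1 ∉ (Finset.Icc 1 m).filter (fun x => c x = v) := by
        simp only [Finset.mem_filter, Finset.mem_Icc]; omega
      rw [e, Finset.filter_insert]
      split_ifs with hv
      · rw [Finset.card_insert_of_notMem hnot]
      · rfl
    cases hc : c (m + 1)
    · left
      conv_lhs => rw [h2]
      rw [card_glue, h1, key true, hc]
      simp only [Bool.false_eq_true, if_false, Bool.not_true] at *
      omega
    · right
      conv_lhs => rw [h2]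
      rw [card_glue, h1, key false, hc]
      simp only [Bool.true_eq_false, if_false, Bool.not_false, Bool.not_true] at *
      omega

/-- `W_{1/2}(a + b - 1) ≥ 2 W(a, b) - 1`. -/
theorem main (a b W H : ℕ) (ha : 1 ≤ a) (hb : 1 ≤ b)
    (hW : IsLeast {N : ℕ | ∀ c : ℕ → Bool, ¬ (NoAP a N c true ∧ NoAP b N c false)} W)
    (hH : IsLeast {N : ℕ | ∀ c : ℕ → Bool, Halving N c →
      ¬ (NoAP (a + b - 1) N c true ∧ NoAP (a + b - 1) N c false)} H) :
    2 * W ≤ H + 1 := by
  by_contra hlt
  push Not at hlt
  have hN : W - 1 ∉ {N : ℕ | ∀ c : ℕ → Bool, ¬ (NoAP a N c true ∧ NoAP b N c false)} := by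
    intro hmem
    have := hW.2 hmem
    omega
  simp only [Set.mem_ofPred_eq] at hN
  push Not at hN
  obtain ⟨c, hc1, hc2⟩ := hN
  refine hH.1 (glue ((H + 1) / 2) c) (halving_glue H c) ⟨?_, ?_⟩
  · exact noAP_glue a b (W - 1) _ H c true hb (by omega) (by omega) hc1 hc2
  · have := noAP_glue b a (W - 1) ((H + 1) / 2) H c false ha (by omega) (by omega) hc2 hc1
    rwa [Nat.add_comm b a] at this

end Pool.Agent.HVW
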