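import Pool.Agent.HVW.Main

/-!
# HVW / Maj: without a halving colouring of `[H]` every longer good colouring is biased everywhere
-/

set_option autoImplicit false

namespace Pool.Agent.HVW

open Finset

/-- number of `i` in `{1, ..., H}` with `c (r + k (u + i)) = v` -/
def cnt (c : ℕ → Bool) (H k r u : ℕ) (v : Bool) : ℕ :=
  ((Finset.Icc 1 H).filter (fun i => c (r + k * (u + i)) = v)).card

theorem cnt_eq_sum (c : ℕ → Bool) (H k r u : ℕ) (v : Bool) :
    cnt c H k r u v = ∑ i ∈ range H, (if c (r + k * (u + 1 + i)) = v then 1 else 0) := by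
  unfold cnt
  rw [Finset.card_filter]
  have : Finset.Icc 1 H = Finset.Ico 1 (H + 1) := by ext x; simp only [mem_Icc, mem_Ico]; omega
  rw [this, Finset.sum_Ico_eq_sum_range, Nat.add_sub_cancel]
  exact Finset.sum_congr rfl fun i _ => by rw [← Nat.add_assoc]

theorem cnt_step (c : ℕ → Bool) (H k r u : ℕ) (v : Bool) :
    cnt c H k r (u + 1) v ≤ cnt c H k r u v + 1 ∧ cnt c H k r u v ≤ cnt c H k r (u + 1) v + 1 := by
  rw [cnt_eq_sum, cnt_eq_sum]
  rcases Nat.eq_zero_or_pos H with h0 | h0
  · subst h0; simp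
  obtain ⟨M, rfl⟩ : ∃ M, H = M + 1 := ⟨H - 1, by omega⟩
  rw [Finset.sum_range_succ,
    Finset.sum_range_succ' (fun i => if c (r + k * (u + 1 + i)) = v then 1 else 0)]
  have : ∑ i ∈ range M, (if c (r + k * (u + 1 + 1 + i)) = v then 1 else 0) =
      ∑ i ∈ range M, (if c (r + k * (u + 1 + (i + 1))) = v then 1 else 0) :=
    Finset.sum_congr rfl fun i _ => by rw [show u + 1 + 1 + i = u + 1 + (i + 1) by omega]
  rw [this]
  constructor <;> split_ifs <;> omega

theorem cnt_add (c : ℕ → Bool) (H k r u : ℕ) : cnt c H k r u true + cnt c H k r u false = H := by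
  have := card_add H (fun i => c (r + k * (u + i))) true
  simpa [cnt] using this

theorem noAP_sub (n M H k r u : ℕ) (c : ℕ → Bool) (v : Bool) (hk : 1 ≤ k) (hM : r + k * (u + H) ≤ M)
    (h : NoAP n M c v) : NoAP n H (fun i => c (r + k * (u + i))) v := by
  intro x d hx hd hxd
  have h1 : r + k * (u + x) + (n - 1) * (k * d) ≤ M := by
    have : k * (u + (x + (n - 1) * d)) ≤ k * (u + H) := Nat.mul_le_mul_left k (by omega)
    have e : r + k * (u + x) + (n - 1) * (k * d) = r + k * (u + (x + (n - 1) * d)) := by ring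
    omega
  have h2 : 1 ≤ r + k * (u + x) := by
    have : 1 * 1 ≤ k * (u + x) := Nat.mul_le_mul hk (by omega)
    omega
  have h3 : 1 ≤ k * d := Nat.mul_pos hk hd
  obtain ⟨i, hi, hne⟩ := h (r + k * (u + x)) (k * d) h2 h3 h1
  refine ⟨i, hi, ?_⟩
  have e : r + k * (u + x) + i * (k * d) = r + k * (u + (x + i * d)) := by ring
  rwa [e] at hne

theorem bias (n H M : ℕ) (c : ℕ → Bool)
    (hH : ∀ c' : ℕ → Bool, Halving H c' → ¬ (NoAP n H c' true ∧ NoAP n H c' false))
    (h1 : NoAP n M c true) (h2 : NoAP n M c false) (k r : ℕ) (hk : 1 ≤ k) :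
    ∃ v : Bool, ∀ u : ℕ, r + k * (u + H) ≤ M → (H + 1) / 2 + 1 ≤ cnt c H k r u v := by
  have key : ∀ u, r + k * (u + H) ≤ M → cnt c H k r u true ≠ H / 2 ∧ cnt c H k r u false ≠ H / 2 := by
    intro u hu
    have h3 := hH (fun i => c (r + k * (u + i)))
    constructor
    · intro h; exact h3 (Or.inl h) ⟨noAP_sub n M H k r u c true hk hu h1, noAP_sub n M H k r u c false hk hu h2⟩
    · intro h; exact h3 (Or.inr h) ⟨noAP_sub n M H k r u c true hk hu h1, noAP_sub n M H k r u c false hk hu h2⟩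
  have mono : ∀ v : Bool, (H + 1) / 2 + 1 ≤ cnt c H k r 0 v → ∀ u : ℕ, r + k * (u + H) ≤ M →
      (H + 1) / 2 + 1 ≤ cnt c H k r u v := by
    intro v h0 u
    induction u with
    | zero => intro _; exact h0
    | succ u ih =>
      intro hu
      have hu' : r + k * (u + H) ≤ M := by
        have : k * (u + H) ≤ k * (u + 1 + H) := Nat.mul_le_mul_left k (by omega)
        omega
      have h4 := ih hu'
      have h5 := (cnt_step c H k r u v).2
      have h6 := key (u + 1) hu
      have h7 := cnt_add c H k r (u + 1)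
      cases v <;> omega
  by_cases h0 : r + k * (0 + H) ≤ M
  · have h6 := key 0 h0
    have h7 := cnt_add c H k r 0
    by_cases hv : (H + 1) / 2 + 1 ≤ cnt c H k r 0 true
    · exact ⟨true, mono true hv⟩
    · exact ⟨false, mono false (by omega)⟩
  · refine ⟨true, fun u hu => ?_⟩
    exfalso
    apply h0
    have : k * (0 + H) ≤ k * (u + H) := Nat.mul_le_mul_left k (by omega)
    omega

/-- The same for the progressions `r + k u, r + k (u + 1), ..., r + k (u + H - 1)`, `r ≥ 1`. -/
theorem bias_all (n H M : ℕ) (c : ℕ → Bool)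
    (hH : ∀ c' : ℕ → Bool, Halving H c' → ¬ (NoAP n H c' true ∧ NoAP n H c' false))
    (h1 : NoAP n M c true) (h2 : NoAP n M c false) (k r : ℕ) (hk : 1 ≤ k) (hr : 1 ≤ r) :
    ∃ v : Bool, ∀ u : ℕ, r + k * (u + (H - 1)) ≤ M →
      (H + 1) / 2 + 1 ≤ ((Finset.range H).filter (fun i => c (r + k * (u + i)) = v)).card := by
  rcases Nat.eq_zero_or_pos H with h0 | h0
  · subst h0
    exact absurd ⟨fun x d hx hd h => by omega, fun x d hx hd h => by omega⟩
      (hH (fun _ => true) (Or.inl (by simp)))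
  obtain ⟨G, rfl⟩ : ∃ G, H = G + 1 := ⟨H - 1, by omega⟩
  simp only [Nat.add_sub_cancel]
  by_cases hrM : r ≤ M
  · set s : ℕ → Bool := fun j => c (r + k * (j - 1)) with hs
    set M' := (M - r) / k + 1 with hM'
    have hkM : k * ((M - r) / k) ≤ M - r := Nat.mul_div_le (M - r) k
    have hno : ∀ v, NoAP n M c v → NoAP n M' s v := by
      intro v hv x d hx hd hxd
      have h3 : k * (x - 1 + (n - 1) * d) ≤ k * ((M - r) / k) := Nat.mul_le_mul_left k (by omega)
      have e : r + k * (x - 1) + (n - 1) * (k * d) = r + k * (x - 1 + (n - 1) * d) := by ring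
      obtain ⟨i, hi, hne⟩ := hv (r + k * (x - 1)) (k * d) (by omega) (Nat.mul_pos hk hd) (by omega)
      refine ⟨i, hi, ?_⟩
      have e2 : r + k * (x - 1) + i * (k * d) = r + k * (x + i * d - 1) := by
        rw [show x + i * d - 1 = x - 1 + i * d by omega]; ring
      rwa [e2] at hne
    obtain ⟨v, hv⟩ := bias n (G + 1) M' s hH (hno true h1) (hno false h2) 1 0 le_rfl
    refine ⟨v, fun u hu => ?_⟩
    have h4 : u + G ≤ (M - r) / k := by
      rw [Nat.le_div_iff_mul_le hk]
      have : (u + G) * k = k * (u + G) := Nat.mul_comm _ _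
      omega
    have h5 := hv u (by omega)
    rw [cnt_eq_sum] at h5
    rw [Finset.card_filter]
    refine h5.trans (le_of_eq (Finset.sum_congr rfl fun i _ => ?_))
    have e3 : (0 + 1 * (u + 1 + i)) - 1 = u + i := by omega
    simp only [hs, e3]
  · refine ⟨true, fun u hu => ?_⟩
    exfalso
    omega

end Pool.Agent.HVW
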